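import Mathlib.Probability.Distributions.Gaussian.Real
import Mathlib.Probability.ProductMeasure
import Mathlib.Analysis.Complex.ExponentialBounds

/-! Clipping Gaussian variables. -/

set_option autoImplicit false

open scoped BigOperators
open MeasureTheory ProbabilityTheory Filter

namespace Pool.Agent.V11260.GD

/-- clipping and scaling -/
noncomputable def cl (B v : ℝ) : ℝ := max (-1) (min 1 (v / B))

theorem cl_abs (B v : ℝ) : |cl B v| ≤ 1 := by
  unfold cl
  rw [abs_le]
  exact ⟨le_max_left _ _, max_le (by norm_num) (min_le_left _ _)⟩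

theorem cl_eq {B v : ℝ} (hB : 0 < B) (h : |v| ≤ B) : cl B v = v / B := by
  have h1 : |v / B| ≤ 1 := by
    rw [abs_div, abs_of_pos hB, div_le_one hB]
    exact h
  rw [abs_le] at h1
  unfold cl
  rw [min_eq_right h1.2, max_eq_right h1.1]

theorem cl_neg (B v : ℝ) : cl B (-v) = -cl B v := by
  unfold cl
  rw [neg_div]
  rcases le_total (v / B) (-1) with h | h
  · rw [min_eq_left (by linarith : (1 : ℝ) ≤ -(v / B)), max_eq_right (by norm_num : (-1 : ℝ) ≤ 1),
      min_eq_right (by linarith : v / B ≤ 1), max_eq_left h]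
    norm_num
  · rcases le_total (v / B) 1 with h' | h'
    · rw [min_eq_right (by linarith : -(v / B) ≤ 1), max_eq_right (by linarith : -1 ≤ -(v / B)),
        min_eq_right h', max_eq_right h]
    · rw [min_eq_right (by linarith : -(v / B) ≤ 1), max_eq_left (by linarith : -(v / B) ≤ -1),
        min_eq_left h', max_eq_right (by norm_num : (-1 : ℝ) ≤ 1)]

theorem cl_meas (B : ℝ) : Measurable (cl B) := by
  unfold cl
  fun_prop

/-- the clipped law -/
noncomputable def nu (B : ℝ) : Measure ℝ := (gaussianReal 0 1).map (cl B)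

theorem nu_prob (B : ℝ) : IsProbabilityMeasure (nu B) :=
  Measure.isProbabilityMeasure_map (cl_meas B).aemeasurable

theorem nu_bd (B : ℝ) : ∀ᵐ s ∂(nu B), |s| ≤ 1 := by
  unfold nu
  rw [ae_map_iff (cl_meas B).aemeasurable (measurableSet_le (by fun_prop) (by fun_prop))]
  exact Eventually.of_forall fun s => cl_abs B s

theorem nu_mean (B : ℝ) : ∫ s, s ∂(nu B) = 0 := by
  unfold nu
  rw [integral_map (cl_meas B).aemeasurable (by fun_prop)]
  have h1 : ∫ s, cl B s ∂((gaussianReal 0 1).map fun s => -s) =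
      ∫ s, cl B (-s) ∂(gaussianReal 0 1) :=
    integral_map (by fun_prop) (cl_meas B).aestronglyMeasurable
  rw [gaussianReal_map_neg, neg_zero] at h1
  have h2 : ∫ s, cl B (-s) ∂(gaussianReal 0 1) = -∫ s, cl B s ∂(gaussianReal 0 1) := by
    rw [← integral_neg]
    exact integral_congr_ae (Eventually.of_forall fun s => cl_neg B s)
  linarith

theorem mgf_one (t : ℝ) : mgf (fun v : ℝ => v) (gaussianReal 0 1) t = Real.exp (t ^ 2 / 2) := by
  rw [mgf_gaussianReal (μ := 0) (v := 1) (by simp)]
  simp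

theorem tail (R : ℝ) (hR : 0 ≤ R) :
    (gaussianReal 0 1).real {v | R < |v|} ≤ 2 * Real.exp (-(R ^ 2 / 2)) := by
  have h1 := measure_ge_le_exp_mul_mgf (μ := gaussianReal 0 1) (X := fun v : ℝ => v) (t := R) R hR
    (integrable_exp_mul_gaussianReal R)
  have h2 := measure_le_le_exp_mul_mgf (μ := gaussianReal 0 1) (X := fun v : ℝ => v) (t := -R) (-R)
    (by linarith) (integrable_exp_mul_gaussianReal (-R))
  rw [mgf_one, ← Real.exp_add] at h1 h2
  have e1 : -R * R + R ^ 2 / 2 = -(R ^ 2 / 2) := by ring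
  have e2 : - -R * -R + (-R) ^ 2 / 2 = -(R ^ 2 / 2) := by ring
  rw [e1] at h1
  rw [e2] at h2
  have hsub : {v : ℝ | R < |v|} ⊆ {v : ℝ | R ≤ v} ∪ {v : ℝ | v ≤ -R} := by
    intro v hv
    simp only [Set.mem_ofPred_eq] at hv
    rcases lt_abs.1 hv with h | h
    · exact Or.inl h.le
    · exact Or.inr (by simp only [Set.mem_ofPred_eq]; linarith)
  calc (gaussianReal 0 1).real {v | R < |v|} ≤ _ := measureReal_mono hsub
    _ ≤ _ := measureReal_union_le _ _
    _ ≤ _ := by linarith

theorem sq_one : ∫ v, v ^ 2 ∂(gaussianReal 0 1) = 1 := by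
  have h1 := variance_id_gaussianReal (μ := 0) (v := 1)
  rw [variance_eq_integral aemeasurable_id] at h1
  simp only [id, integral_id_gaussianReal, sub_zero] at h1
  simpa using h1

theorem sq_int : Integrable (fun v : ℝ => v ^ 2) (gaussianReal 0 1) :=
  (memLp_id_gaussianReal (μ := 0) (v := 1) 2).integrable_sq

/-- the variance of the clipped variable -/
theorem var_cl (B : ℝ) (hB : 1 ≤ B) :
    1 - 30 * Real.exp (-B) ≤ B ^ 2 * ∫ s, s ^ 2 ∂(nu B) ∧ B ^ 2 * ∫ s, s ^ 2 ∂(nu B) ≤ 1 := by
  have hB0 : 0 < B := by linarith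
  have e1 : B ^ 2 * ∫ s, s ^ 2 ∂(nu B) = ∫ v, B ^ 2 * (cl B v) ^ 2 ∂(gaussianReal 0 1) := by
    unfold nu
    rw [integral_map (cl_meas B).aemeasurable (by fun_prop), integral_const_mul]
  have hi : Integrable (fun v => B ^ 2 * (cl B v) ^ 2) (gaussianReal 0 1) := by
    refine Integrable.mono' (integrable_const (B ^ 2))
      (((cl_meas B).pow_const 2).const_mul _).aestronglyMeasurable
      (Eventually.of_forall fun v => ?_)
    rw [Real.norm_of_nonneg (by positivity)]
    have h1 : (cl B v) ^ 2 ≤ 1 := by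
      rw [← sq_abs]
      exact pow_le_one₀ (abs_nonneg _) (cl_abs B v)
    exact mul_le_of_le_one_right (by positivity) h1
  have hle : ∀ v, B ^ 2 * (cl B v) ^ 2 ≤ v ^ 2 := by
    intro v
    rcases le_or_gt |v| B with h | h
    · rw [cl_eq hB0 h]
      apply le_of_eq
      field_simp
    · have h1 : (cl B v) ^ 2 ≤ 1 := by
        rw [← sq_abs]
        exact pow_le_one₀ (abs_nonneg _) (cl_abs B v)
      calc B ^ 2 * (cl B v) ^ 2 ≤ B ^ 2 := mul_le_of_le_one_right (by positivity) h1
        _ ≤ |v| ^ 2 := pow_le_pow_left₀ hB0.le h.le 2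
        _ = v ^ 2 := sq_abs v
  have i2 := integrable_exp_mul_gaussianReal (μ := 0) (v := 1) 2
  have i3 := integrable_exp_mul_gaussianReal (μ := 0) (v := 1) (-2)
  have hdiff : ∀ v, v ^ 2 - B ^ 2 * (cl B v) ^ 2 ≤
      2 * Real.exp (-B) * (Real.exp (2 * v) + Real.exp (-2 * v)) := by
    intro v
    rcases le_or_gt |v| B with h | h
    · rw [cl_eq hB0 h]
      have h2 : v ^ 2 - B ^ 2 * (v / B) ^ 2 = 0 := by
        field_simp
        ring
      rw [h2]
      positivity
    · have h1 : 0 ≤ B ^ 2 * (cl B v) ^ 2 := by positivity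
      have h2 : v ^ 2 ≤ 2 * Real.exp |v| := by
        have h3 := Real.quadratic_le_exp_of_nonneg (abs_nonneg v)
        rw [sq_abs] at h3
        have := abs_nonneg v
        linarith
      have h4 : Real.exp |v| ≤ Real.exp (-B) * Real.exp (2 * |v|) := by
        rw [← Real.exp_add]
        apply Real.exp_le_exp.2
        linarith
      have h5 : Real.exp (2 * |v|) ≤ Real.exp (2 * v) + Real.exp (-2 * v) := by
        rcases abs_cases v with h6 | h6
        · rw [h6.1]
          have := Real.exp_pos (-2 * v)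
          linarith
        · rw [h6.1]
          have := Real.exp_pos (2 * v)
          have e3 : 2 * -v = -2 * v := by ring
          rw [e3]
          linarith
      calc v ^ 2 - B ^ 2 * (cl B v) ^ 2 ≤ 2 * Real.exp |v| := by linarith
        _ ≤ 2 * (Real.exp (-B) * Real.exp (2 * |v|)) := by linarith
        _ ≤ 2 * (Real.exp (-B) * (Real.exp (2 * v) + Real.exp (-2 * v))) := by gcongr
        _ = _ := by ring
  rw [e1]
  constructor
  · have h1 : ∫ v, (v ^ 2 - B ^ 2 * (cl B v) ^ 2) ∂(gaussianReal 0 1) ≤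
        ∫ v, 2 * Real.exp (-B) * (Real.exp (2 * v) + Real.exp (-2 * v)) ∂(gaussianReal 0 1) :=
      integral_mono (sq_int.sub hi) ((i2.add i3).const_mul _) hdiff
    have h0 : ∫ v, 2 * Real.exp (-B) * (Real.exp (2 * v) + Real.exp (-2 * v))
        ∂(gaussianReal 0 1) = 2 * Real.exp (-B) * (∫ v, Real.exp (2 * v) ∂(gaussianReal 0 1) +
        ∫ v, Real.exp (-2 * v) ∂(gaussianReal 0 1)) := by
      rw [integral_const_mul, integral_add i2 i3]
    rw [integral_sub sq_int hi, sq_one, h0] at h1
    have m2 := mgf_one 2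
    have m3 := mgf_one (-2)
    unfold mgf at m2 m3
    rw [m2, m3] at h1
    have e2 : Real.exp (2 ^ 2 / 2) ≤ 7.39 := by
      have h3 := Real.exp_one_lt_d9
      have h4 : Real.exp (2 ^ 2 / 2) = Real.exp 1 ^ 2 := by
        rw [← Real.exp_nat_mul]
        congr 1
        norm_num
      rw [h4]
      nlinarith [Real.exp_pos 1]
    have e3 : Real.exp ((-2) ^ 2 / 2) = Real.exp (2 ^ 2 / 2) := by norm_num
    rw [e3] at h1
    have h5 := Real.exp_pos (-B)
    nlinarith
  · rw [← sq_one]
    exact integral_mono hi sq_int hle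

end Pool.Agent.V11260.GD
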