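import Pool.Agent.V11260.GD.ParG
import Pool.Agent.V11260.GD.Clip
import Pool.Agent.TH794.HK.FinM

/-! The characteristic function of the resolvent for Gaussian potentials, one scale. -/

set_option autoImplicit false
set_option linter.unusedSectionVars false

open scoped BigOperators Topology
open MeasureTheory ProbabilityTheory Filter Set

namespace Pool.Agent.V11260.GD

open Pool.Agent.W788.BK
open Pool.Agent.H4R2
open Pool.Agent.H4R2.LO (Zd)
open Pool.Agent.W788.BK.Num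
open Pool.Agent.TH794.QD
open Pool.Agent.TH794.QE
open Pool.Agent.TH794.HK
open Pool.Agent.TH794.FG (LS)
open Pool.Agent.TH794.LL2 (hexle)

/-- the law for the energies `B`, for one scale -/
def EngG (d : ℕ) (B : ℝ → Prop) (γ0 γ1 : ℝ → ℂ) (Kp : ℝ) : Prop :=
  ∃ y0 : ℝ, ∀ y : ℝ, y0 ≤ y →
    ∀ (ν : Measure ℝ), IsProbabilityMeasure ν → (∀ᵐ s ∂ν, |s| ≤ 1) → ∫ s, s ∂ν = 0 →
    ∀ Vv : ℝ, ∫ s, s ^ 2 ∂ν = Vv → Real.exp (-(1 / 1500) * y) ≤ Vv →
    ∀ t : ℝ, Real.exp (-(81 / 40) * y) ≤ t → t ≤ Real.exp (-(161 / 80) * y) →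
    ∃ G : Set (Zd d → ℝ), MeasurableSet G ∧
      1 - Real.exp (-Real.exp (y / 100)) ≤ (Measure.infinitePi fun _ : Zd d => ν).real G ∧
      (∀ ξ ξ' : Zd d → ℝ, (∀ x, ‖x‖ ≤ Real.exp (Real.exp (y / 2500)) + Real.exp (7 * y) →
        ξ x = ξ' x) → ξ ∈ G → ξ' ∈ G) ∧
      ∀ ξ ∈ G, QLawK d B (Tg γ0 γ1 t (Real.exp (-2 * y) * Vv))
        (Real.exp (-1 * y)) (Real.exp (Real.exp (y / 2500))) t (Real.exp (-10 * y))
        (Kp * (t * (Real.exp (-2 * y) * Vv))) (Real.exp (-(1 / 180) * y)) ξ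

/-- the engine in dimension at least three -/
theorem engG3 (hES : S_ES) (hTH : S_THIRD) (hFL : S_FLUCT) (hIN : S_INV)
    (hSU : S_SUP) (hQB : S_QB) (hLO : S_LOW) (hAD : S_ADM) (hFA : S_FAC) (hO : S_OSC)
    (d : ℕ) (hd : 3 ≤ d) (κ : ℝ) (hκ : 0 < κ) (hκ1 : κ ≤ 1) :
    (∃ m : ℝ, 0 < m ∧ ∀ E : ℝ, |E| ≤ 2 * d - κ → m ≤ (GF (F1 d) (E : ℂ)).im ∧
      (GF (F1 d) (E : ℂ)).im ≤ (GF (F0 d) (E : ℂ)).im) ∧
    ∀ Kp : ℝ, 0 ≤ Kp →
      EngG d (fun E => |E| ≤ 2 * d - κ) (fun E => GF (F0 d) (E : ℂ))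
        (fun E => GF (F1 d) (E : ℂ)) Kp := by
  have hd0 : (0 : ℝ) ≤ d := Nat.cast_nonneg d
  have hreg : ∀ E : ℝ, |E| ≤ 2 * d - κ → RegE d κ E := fun E hE => Or.inr ⟨hd, by linarith⟩
  obtain ⟨m, hm, hl⟩ := low_lim d (by omega) κ hκ hκ1 (fun E => GF (F1 d) (E : ℂ))
    fun E _ => lim3 _ _ (hol1 hO d hd) E
  refine ⟨⟨m, hm, fun E hE => ⟨hl E (hreg E hE) hE, (GF_im hO d hd (E : ℂ) (by simp)).2⟩⟩,
    fun Kp hKp => ?_⟩
  obtain ⟨CQ, hCQ, hdat⟩ := dat3 hQB hO d hd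
  obtain ⟨y0, h0⟩ := engineG hES hTH hFL hIN hSU hLO hAD hFA d (by omega) (fun _ => True)
    (fun _ => True) (fun E => |E| ≤ 2 * d - κ) C1 CQ
    (Pool.Agent.TH794.QD.CH d) (fun E => GF (F0 d) (E : ℂ)) (fun E => GF (F1 d) (E : ℂ)) hdat
    C1_ge hCQ (CH_nonneg d) 1 one_pos
    (fun E hE => ⟨by linarith, trivial, fun x hx => trivial⟩)
    (fun E x hE hx => trivial)
    1 (m / 2) Kp one_pos (by positivity) hKp
    (fun E hE => by
      have h1 := hl E (hreg E hE) hE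
      have h2 := (GF_im hO d hd (E : ℂ) (by simp)).2
      linarith)
  exact ⟨y0, h0⟩

/-- the profile depends weakly on the variance -/
theorem Tg_var {d : ℕ} (γ0 γ1 : ℝ → ℂ) (t s2 s2' Vb E K e : ℝ) (p : Fin d → ℝ) (ht : 0 < t)
    (hs : 0 < s2) (hs' : 0 < s2') (hV : s2 = Vb * s2') (hV1 : Vb ≤ 1) (hVe : 1 - Vb ≤ e)
    (hK : 0 ≤ K) (hp : ∑ i, p i ^ 2 ≤ K * (t * s2)) (h0 : 0 < (γ0 E).im) (h1 : 0 ≤ (γ1 E).im)
    (h10 : (γ1 E).im ≤ (γ0 E).im) :
    |Tg γ0 γ1 t s2 E p - Tg γ0 γ1 t s2' E p| ≤ K * e := by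
  obtain ⟨S, hS⟩ : ∃ S, S = ∑ i, p i ^ 2 := ⟨_, rfl⟩
  obtain ⟨G, hG⟩ : ∃ G, G = (γ0 E).im := ⟨_, rfl⟩
  obtain ⟨G1, hG1⟩ : ∃ G1, G1 = (γ1 E).im := ⟨_, rfl⟩
  unfold Tg
  rw [← hS] at hp ⊢
  rw [← hG] at h0 h10 ⊢
  rw [← hG1] at h1 h10 ⊢
  have hS0 : 0 ≤ S := by rw [hS]; exact Finset.sum_nonneg fun i _ => sq_nonneg _
  obtain ⟨q, hq⟩ : ∃ q, q = G1 / G ^ 2 := ⟨_, rfl⟩
  have hq0 : 0 ≤ q := by rw [hq]; positivity
  have hGq : G * q ≤ 1 := by
    rw [hq]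
    have e1 : G * (G1 / G ^ 2) = G1 / G := by field_simp
    rw [e1, div_le_one h0]
    exact h10
  rw [← hq]
  obtain ⟨x, hx⟩ : ∃ x, x = S / (t * s2) := ⟨_, rfl⟩
  obtain ⟨x', hx'⟩ : ∃ x', x' = S / (t * s2') := ⟨_, rfl⟩
  rw [← hx, ← hx']
  have hx0 : 0 ≤ x := by rw [hx]; positivity
  have hx0' : 0 ≤ x' := by rw [hx']; positivity
  have hVb0 : 0 < Vb := by
    by_contra hn
    push Not at hn
    have := mul_nonpos_of_nonpos_of_nonneg hn hs'.le
    linarith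
  have hxx : x' = x * Vb := by
    rw [hx, hx', hV]
    field_simp
  have hxK : x ≤ K := by
    rw [hx, div_le_iff₀ (by positivity)]
    exact hp
  have hxd : x - x' ≤ K * e := by
    have e1 : x - x' = x * (1 - Vb) := by rw [hxx]; ring
    rw [e1]
    exact mul_le_mul hxK hVe (by linarith) hK
  have hxd0 : 0 ≤ x - x' := by
    have e1 : x - x' = x * (1 - Vb) := by rw [hxx]; ring
    rw [e1]
    exact mul_nonneg hx0 (by linarith)
  have a1 : 1 ≤ 1 + x * q := by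
    have := mul_nonneg hx0 hq0
    linarith
  have a2 : 1 ≤ 1 + x' * q := by
    have := mul_nonneg hx0' hq0
    linarith
  have e1 : G / (1 + x * q) - G / (1 + x' * q) =
      -((G * q) * (x - x') / ((1 + x * q) * (1 + x' * q))) := by
    have : 1 + x * q ≠ 0 := by positivity
    have : 1 + x' * q ≠ 0 := by positivity
    field_simp
    ring
  rw [e1, abs_neg, abs_of_nonneg (by positivity)]
  calc (G * q) * (x - x') / ((1 + x * q) * (1 + x' * q)) ≤ (G * q) * (x - x') := by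
        apply div_le_self (by positivity)
        exact one_le_mul_of_one_le_of_one_le a1 a2
    _ ≤ 1 * (x - x') := by gcongr
    _ ≤ _ := by linarith

/-- the probability -/
theorem numP (d : ℕ) : ∀ᶠ y : ℝ in atTop,
    Real.exp (13 * y + 2) * Real.exp (-Real.exp (1 / 100 * y)) +
      (3 * (Real.exp (Real.exp (1 / 2500 * y)) + Real.exp (7 * y))) ^ d *
        (2 * Real.exp (-(Real.exp (1 / 3999 * y) ^ 2 / 2))) ≤
      Real.exp (-Real.exp (1 / 2600 * y)) := by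
  filter_upwards [ev1 7 (1 / 2500) 1 (by norm_num),
    ev3 (2 * ((d : ℝ) + 1) * (1 + Real.log 12)) (1 / 2500) (2 / 3999) (by norm_num),
    ev3 (1 + 1) (1 / 2600) (1 / 2500) (by norm_num), ev3 (2 + 1) (1 / 2500) (1 / 100) (by norm_num),
    ev1 13 (1 / 2500) 1 (by norm_num), eventually_ge_atTop 1] with y h1 h2 h3 h4 h5 hy1
  obtain ⟨Y, hY⟩ : ∃ Y, Y = Real.exp (1 / 2500 * y) := ⟨_, rfl⟩
  rw [pow_one] at h1 h5
  rw [← hY] at h1 h2 h3 h4 h5 ⊢
  have hY1 : 1 ≤ Y := by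
    rw [hY]
    exact Real.one_le_exp (by linarith)
  have e1 : Real.exp (1 / 3999 * y) ^ 2 = Real.exp (2 / 3999 * y) := by
    rw [← Real.exp_nat_mul]
    congr 1
    push_cast
    ring
  rw [e1]
  have hlog12 : 0 ≤ Real.log 12 := Real.log_nonneg (by norm_num)
  have hd0 : (0 : ℝ) ≤ d := Nat.cast_nonneg d
  have a1 : 3 * (Real.exp Y + Real.exp (7 * y)) ≤ 12 * Real.exp Y := by
    have : Real.exp (7 * y) ≤ Real.exp Y := Real.exp_le_exp.2 h1
    have := Real.exp_pos Y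
    linarith
  have a2 : (3 * (Real.exp Y + Real.exp (7 * y))) ^ d ≤ Real.exp (d * (Real.log 12 + Y)) := by
    have h6 : Real.exp (d * (Real.log 12 + Y)) = (12 * Real.exp Y) ^ d := by
      rw [Real.exp_nat_mul, Real.exp_add, Real.exp_log (by norm_num)]
    rw [h6]
    exact pow_le_pow_left₀ (by positivity) a1 d
  have a3 : d * (Real.log 12 + Y) + Real.log 2 + Y ≤ Real.exp (2 / 3999 * y) / 2 := by
    have h7 : Real.log 2 ≤ Real.log 12 := Real.log_le_log (by norm_num) (by norm_num)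
    have h9 : (d * (Real.log 12 + Y) + Real.log 2 + Y) ≤ ((d : ℝ) + 1) * (1 + Real.log 12) * Y := by
      have b1 : Real.log 12 ≤ Real.log 12 * Y := le_mul_of_one_le_right hlog12 hY1
      have b2 : (d : ℝ) * Real.log 12 ≤ d * (Real.log 12 * Y) := mul_le_mul_of_nonneg_left b1 hd0
      nlinarith
    linarith
  have a4 : (3 * (Real.exp Y + Real.exp (7 * y))) ^ d *
      (2 * Real.exp (-(Real.exp (2 / 3999 * y) / 2))) ≤ Real.exp (-Y) := by
    calc (3 * (Real.exp Y + Real.exp (7 * y))) ^ d *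
        (2 * Real.exp (-(Real.exp (2 / 3999 * y) / 2))) ≤
        Real.exp (d * (Real.log 12 + Y)) *
          (Real.exp (Real.log 2) * Real.exp (-(Real.exp (2 / 3999 * y) / 2))) := by
          rw [Real.exp_log (by norm_num)]
          gcongr
      _ = Real.exp (d * (Real.log 12 + Y) + (Real.log 2 + -(Real.exp (2 / 3999 * y) / 2))) := by
          rw [← Real.exp_add, ← Real.exp_add]
      _ ≤ Real.exp (-Y) := by
          apply Real.exp_le_exp.2
          linarith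
  have a6 : Real.exp (13 * y + 2) * Real.exp (-Real.exp (1 / 100 * y)) ≤ Real.exp (-Y) := by
    rw [← Real.exp_add]
    apply Real.exp_le_exp.2
    linarith
  have a5 : Real.exp (-Y) + Real.exp (-Y) ≤ Real.exp (-Real.exp (1 / 2600 * y)) := by
    have h10 : Real.exp (-Y) + Real.exp (-Y) = Real.exp (Real.log 2 + -Y) := by
      rw [Real.exp_add, Real.exp_log (by norm_num)]
      ring
    rw [h10]
    apply Real.exp_le_exp.2
    have h11 : 1 ≤ Real.exp (1 / 2600 * y) := Real.one_le_exp (by positivity)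
    have h12 : Real.log 2 ≤ 1 := by
      have := Real.log_two_lt_d9
      linarith
    linarith
  linarith

end Pool.Agent.V11260.GD
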