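import Pool.Agent.TH794.QD.Evo
import Pool.Agent.W788.Gen3

/-! The Schroedinger evolution of an arbitrary (unbounded) potential. -/

set_option autoImplicit false

open scoped BigOperators Topology
open MeasureTheory Filter Set

namespace Pool.Agent.V11260.GD

open Pool.Agent.W788.LD.Spec (S)
open Pool.Agent.H4R2
open Pool.Agent.H4R2.LO (Zd)
open Pool.Agent.TH794.QD

variable {d : ℕ}

/-- the right hand side -/
noncomputable def rhs (V : Zd d → ℝ) (u : Zd d → ℂ) (x : Zd d) : ℂ :=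
  -Complex.I * (-S u x + (V x : ℂ) * u x)

/-- bounds of the neighbours -/
noncomputable def nb (f : Zd d → ℝ) (x : Zd d) : ℝ :=
  ∑ i : Fin d, (f (x + Pi.single i 1) + f (x - Pi.single i 1))

theorem S_le (u : Zd d → ℂ) (f : Zd d → ℝ) (h : ∀ x, ‖u x‖ ≤ f x) (x : Zd d) :
    ‖S u x‖ ≤ nb f x := by
  unfold Pool.Agent.W788.LD.Spec.S nb
  refine (norm_sum_le _ _).trans (Finset.sum_le_sum fun i _ => ?_)
  exact (norm_add_le _ _).trans (add_le_add (h _) (h _))

theorem rhs_le (V : Zd d → ℝ) (u : Zd d → ℂ) (f : Zd d → ℝ) (h : ∀ x, ‖u x‖ ≤ f x) (x : Zd d) :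
    ‖rhs V u x‖ ≤ nb f x + |V x| * f x := by
  unfold rhs
  rw [norm_mul, norm_neg, Complex.norm_I, one_mul]
  refine (norm_add_le _ _).trans (add_le_add ?_ ?_)
  · rw [norm_neg]
    exact S_le u f h x
  · rw [norm_mul, Complex.norm_real, Real.norm_eq_abs]
    exact mul_le_mul_of_nonneg_left (h x) (abs_nonneg _)

theorem S_sub (u v : Zd d → ℂ) (x : Zd d) : S (fun y => u y - v y) x = S u x - S v x := by
  unfold Pool.Agent.W788.LD.Spec.S
  rw [← Finset.sum_sub_distrib]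
  exact Finset.sum_congr rfl fun i _ => by ring

theorem rhs_sub (V : Zd d → ℝ) (u v : Zd d → ℂ) (x : Zd d) :
    rhs V u x - rhs V v x = rhs V (fun y => u y - v y) x := by
  unfold rhs
  rw [S_sub]
  ring

/-- the first bound -/
noncomputable def c1 (V : Zd d → ℝ) (x : Zd d) : ℝ := nb (fun _ => 1) x + |V x| * 1

/-- the second bound -/
noncomputable def c2 (V : Zd d → ℝ) (x : Zd d) : ℝ := nb (c1 V) x + |V x| * c1 V x

theorem nb_mono (f g : Zd d → ℝ) (h : ∀ x, f x ≤ g x) (x : Zd d) : nb f x ≤ nb g x :=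
  Finset.sum_le_sum fun i _ => add_le_add (h _) (h _)

theorem nb_nonneg (f : Zd d → ℝ) (h : ∀ x, 0 ≤ f x) (x : Zd d) : 0 ≤ nb f x :=
  Finset.sum_nonneg fun i _ => add_nonneg (h _) (h _)

theorem c1_nonneg (V : Zd d → ℝ) (x : Zd d) : 0 ≤ c1 V x :=
  add_nonneg (nb_nonneg _ (fun _ => zero_le_one) x) (by positivity)

theorem c1_mono (V W : Zd d → ℝ) (h : ∀ x, |V x| ≤ |W x|) (x : Zd d) : c1 V x ≤ c1 W x := by
  unfold c1
  have := h x
  linarith

theorem c2_mono (V W : Zd d → ℝ) (h : ∀ x, |V x| ≤ |W x|) (x : Zd d) : c2 V x ≤ c2 W x := by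
  unfold c2
  refine add_le_add (nb_mono _ _ (c1_mono V W h) x) ?_
  exact mul_le_mul (h x) (c1_mono V W h x) (c1_nonneg V x) (abs_nonneg _)

/-- the second difference -/
theorem sol_two {V : Zd d → ℝ} {a : Zd d} {ψ : ℝ → Zd d → ℂ} (h : Sol d V a ψ) (s t : ℝ)
    (x : Zd d) : ‖ψ t x - ψ s x - ((t - s : ℝ) : ℂ) * rhs V (ψ s) x‖ ≤ c2 V x * (t - s) ^ 2 := by
  have hle : ∀ (s : ℝ) x, ‖ψ s x‖ ≤ 1 := fun s x => h.le_one s x
  have hd : ∀ s x, HasDerivAt (fun s => ψ s x) (rhs V (ψ s) x) s := fun s x => h.ode s x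
  have h1 : ∀ s t x, ‖ψ t x - ψ s x‖ ≤ c1 V x * |t - s| := by
    intro s t x
    have := Convex.norm_image_sub_le_of_norm_hasDerivWithin_le (f := fun s => ψ s x)
      (f' := fun s => rhs V (ψ s) x) (s := univ) (C := c1 V x) (x := s) (y := t)
      (fun r _ => (hd r x).hasDerivWithinAt)
      (fun r _ => rhs_le V (ψ r) (fun _ => 1) (fun y => hle r y) x) convex_univ (mem_univ _)
      (mem_univ _)
    rwa [Real.norm_eq_abs] at this
  have h2 : ∀ s t x, ‖rhs V (ψ t) x - rhs V (ψ s) x‖ ≤ c2 V x * |t - s| := by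
    intro s t x
    rw [rhs_sub]
    refine (rhs_le V _ (fun y => c1 V y * |t - s|) (fun y => h1 s t y) x).trans (le_of_eq ?_)
    unfold c2 nb
    rw [add_mul, Finset.sum_mul]
    congr 1
    · exact Finset.sum_congr rfl fun i _ => by ring
    · ring
  have hc2 : 0 ≤ c2 V x := add_nonneg (nb_nonneg _ (c1_nonneg V) x)
    (mul_nonneg (abs_nonneg _) (c1_nonneg V x))
  have hder : ∀ r, HasDerivAt (fun r : ℝ => ψ r x - ((r : ℝ) : ℂ) * rhs V (ψ s) x)
      (rhs V (ψ r) x - 1 * rhs V (ψ s) x) r := fun r =>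
    (hd r x).sub ((Complex.ofRealCLM.hasDerivAt (x := r)).mul_const _)
  have h3 := Convex.norm_image_sub_le_of_norm_hasDerivWithin_le
    (f := fun r : ℝ => ψ r x - ((r : ℝ) : ℂ) * rhs V (ψ s) x)
    (f' := fun r => rhs V (ψ r) x - 1 * rhs V (ψ s) x) (s := uIcc s t) (C := c2 V x * |t - s|)
    (x := s) (y := t) (fun r _ => (hder r).hasDerivWithinAt) (fun r hr => by
      rw [one_mul]
      refine (h2 s r x).trans ?_
      exact mul_le_mul_of_nonneg_left (abs_sub_left_of_mem_uIcc hr) hc2)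
    (convex_uIcc s t) left_mem_uIcc right_mem_uIcc
  rw [Real.norm_eq_abs] at h3
  have e1 : ψ t x - ((t : ℝ) : ℂ) * rhs V (ψ s) x - (ψ s x - ((s : ℝ) : ℂ) * rhs V (ψ s) x) =
      ψ t x - ψ s x - ((t - s : ℝ) : ℂ) * rhs V (ψ s) x := by
    push_cast
    ring
  rw [e1] at h3
  refine h3.trans (le_of_eq ?_)
  rw [mul_assoc, abs_mul_abs_self]
  ring

/-- differentiability from second differences -/
theorem deriv_two (f : ℝ → ℂ) (D : ℂ) (s C : ℝ)
    (h : ∀ t, ‖f t - f s - ((t - s : ℝ) : ℂ) * D‖ ≤ C * (t - s) ^ 2) : HasDerivAt f D s := by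
  rw [hasDerivAt_iff_isLittleO]
  have h1 : (fun t => f t - f s - (t - s) • D) =O[𝓝 s] fun t => (t - s) ^ 2 := by
    refine Asymptotics.IsBigO.of_bound C (Eventually.of_forall fun t => ?_)
    rw [Real.norm_of_nonneg (sq_nonneg (t - s))]
    exact h t
  refine h1.trans_isLittleO ?_
  have h2 : (fun t => (t - s) ^ 2) =o[𝓝 s] fun t => (t - s) ^ 1 :=
    (Asymptotics.isLittleO_pow_pow (𝕜 := ℝ) one_lt_two).comp_tendsto (by
      have : Tendsto (fun t : ℝ => t - s) (𝓝 s) (𝓝 (s - s)) :=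
        (continuous_id.sub continuous_const).tendsto s
      rwa [sub_self] at this)
  simpa using h2

end Pool.Agent.V11260.GD
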