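import Pool.Agent.V11260.GD.Exi

/-! The Schroedinger evolution of an arbitrary potential: existence. -/

set_option autoImplicit false

open scoped BigOperators Topology
open MeasureTheory Filter Set

namespace Pool.Agent.V11260.GD

open Pool.Agent.W788.LD.Spec (S)
open Pool.Agent.H4R2
open Pool.Agent.H4R2.LO (Zd)
open Pool.Agent.TH794.QD

variable {d : ℕ}

/-- the flux -/
noncomputable def fx (u : Zd d → ℂ) (x : Zd d) : ℝ :=
  2 * ((starRingEnd ℂ) (u x) * (Complex.I * S u x)).re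

theorem fx_sum (u : Zd d → ℂ) (hu : Summable fun x => ‖u x‖ ^ 2) : HasSum (fx u) 0 := by
  obtain ⟨s1, s2, e1⟩ := Pool.Agent.W788.LD.Spec.symm u u hu hu
  have h1 : ∀ x, fx u x = (Complex.I * ((starRingEnd ℂ) (u x) * S u x -
      (starRingEnd ℂ) (S u x) * u x)).re := by
    intro x
    have h2 : (Complex.I * ((starRingEnd ℂ) (u x) * S u x - (starRingEnd ℂ) (S u x) * u x)).re =
        (Complex.I * ((starRingEnd ℂ) (u x) * S u x)).re -
          (Complex.I * ((starRingEnd ℂ) (S u x) * u x)).re := by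
      rw [mul_sub, Complex.sub_re]
    have h3 : (Complex.I * ((starRingEnd ℂ) (S u x) * u x)).re =
        -(Complex.I * ((starRingEnd ℂ) (u x) * S u x)).re := by
      simp
      ring
    rw [h2, h3]
    unfold fx
    have h4 : (starRingEnd ℂ) (u x) * (Complex.I * S u x) =
        Complex.I * ((starRingEnd ℂ) (u x) * S u x) := by ring
    rw [h4]
    ring
  have h5 := ((s1.hasSum.sub s2.hasSum).mul_left Complex.I).mapL Complex.reCLM
  rw [e1, sub_self, mul_zero, map_zero] at h5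
  refine h5.congr_fun ?_ |> fun h => h
  intro x
  rw [h1]
  rfl

theorem sh_sum (u : Zd d → ℂ) (hu : HasSum (fun x => ‖u x‖ ^ 2) (∑' x, ‖u x‖ ^ 2)) (e : Zd d)
    (F : Finset (Zd d)) : ∑ x ∈ F, ‖u (x + e)‖ ^ 2 ≤ ∑' x, ‖u x‖ ^ 2 := by
  have h1 : ∑ x ∈ F, ‖u (x + e)‖ ^ 2 = ∑ y ∈ F.map (addRightEmbedding e), ‖u y‖ ^ 2 := by
    rw [Finset.sum_map]
    rfl
  rw [h1]
  exact hu.summable.sum_le_tsum _ fun x _ => sq_nonneg _

theorem fx_bd (u : Zd d → ℂ) (hu : HasSum (fun x => ‖u x‖ ^ 2) (∑' x, ‖u x‖ ^ 2))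
    (h1 : ∑' x, ‖u x‖ ^ 2 ≤ 1) (F : Finset (Zd d)) : |∑ x ∈ F, fx u x| ≤ 4 * d := by
  have hpt : ∀ x, |fx u x| ≤ ∑ i : Fin d, (2 * ‖u x‖ ^ 2 + (‖u (x + Pi.single i 1)‖ ^ 2 +
      ‖u (x + -Pi.single i 1)‖ ^ 2)) := by
    intro x
    unfold fx
    rw [abs_mul, abs_two]
    have h2 : |((starRingEnd ℂ) (u x) * (Complex.I * S u x)).re| ≤ ‖u x‖ * ‖S u x‖ := by
      refine (Complex.abs_re_le_norm _).trans (le_of_eq ?_)
      rw [norm_mul, norm_mul, Complex.norm_I, one_mul, RCLike.norm_conj]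
    have h3 : ‖S u x‖ ≤ ∑ i : Fin d, (‖u (x + Pi.single i 1)‖ + ‖u (x + -Pi.single i 1)‖) := by
      unfold Pool.Agent.W788.LD.Spec.S
      refine (norm_sum_le _ _).trans (Finset.sum_le_sum fun i _ => ?_)
      rw [← sub_eq_add_neg]
      exact norm_add_le _ _
    calc 2 * |((starRingEnd ℂ) (u x) * (Complex.I * S u x)).re| ≤ 2 * (‖u x‖ * ‖S u x‖) := by
          linarith
      _ ≤ 2 * (‖u x‖ * ∑ i : Fin d, (‖u (x + Pi.single i 1)‖ + ‖u (x + -Pi.single i 1)‖)) := by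
          gcongr
      _ = ∑ i : Fin d, 2 * (‖u x‖ * (‖u (x + Pi.single i 1)‖ + ‖u (x + -Pi.single i 1)‖)) := by
          rw [Finset.mul_sum, Finset.mul_sum]
      _ ≤ _ := by
          refine Finset.sum_le_sum fun i _ => ?_
          nlinarith [sq_nonneg (‖u x‖ - ‖u (x + Pi.single i 1)‖),
            sq_nonneg (‖u x‖ - ‖u (x + -Pi.single i 1)‖)]
  refine (Finset.abs_sum_le_sum_abs _ _).trans ((Finset.sum_le_sum fun x _ => hpt x).trans ?_)
  rw [Finset.sum_comm]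
  have h4 : ∀ i ∈ (Finset.univ : Finset (Fin d)), ∑ x ∈ F, (2 * ‖u x‖ ^ 2 +
      (‖u (x + Pi.single i 1)‖ ^ 2 + ‖u (x + -Pi.single i 1)‖ ^ 2)) ≤ 4 := by
    intro i _
    rw [Finset.sum_add_distrib, Finset.sum_add_distrib, ← Finset.mul_sum]
    have a1 := hu.summable.sum_le_tsum F fun x _ => sq_nonneg _
    have a2 := sh_sum u hu (Pi.single i 1) F
    have a3 := sh_sum u hu (-Pi.single i 1) F
    linarith
  refine (Finset.sum_le_sum h4).trans (le_of_eq ?_)
  rw [Finset.sum_const, Finset.card_univ, Fintype.card_fin, nsmul_eq_mul]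
  ring

/-- conservation of the norm -/
theorem conserve (V : Zd d → ℝ) (ψ : ℝ → Zd d → ℂ)
    (hode : ∀ s x, HasDerivAt (fun s => ψ s x) (rhs V (ψ s) x) s)
    (hs : ∀ s, Summable fun x => ‖ψ s x‖ ^ 2) (h1 : ∀ s, ∑' x, ‖ψ s x‖ ^ 2 ≤ 1) (t : ℝ) :
    ∑' x, ‖ψ t x‖ ^ 2 = ∑' x, ‖ψ 0 x‖ ^ 2 := by
  have hc : ∀ x, Continuous fun s => ψ s x := fun x =>
    continuous_iff_continuousAt.2 fun s => (hode s x).continuousAt
  have hder : ∀ x s, HasDerivAt (fun s => ‖ψ s x‖ ^ 2) (fx (ψ s) x) s := by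
    intro x s
    have h2 := (hode s x).norm_sq
    have h3 : 2 * inner ℝ (ψ s x) (rhs V (ψ s) x) = fx (ψ s) x := by
      rw [Complex.inner, mul_comm (rhs V (ψ s) x)]
      unfold fx rhs
      have h4 : (starRingEnd ℂ) (ψ s x) * (-Complex.I * (-S (ψ s) x + (V x : ℂ) * ψ s x)) =
          (starRingEnd ℂ) (ψ s x) * (Complex.I * S (ψ s) x) -
            Complex.I * ((V x * ‖ψ s x‖ ^ 2 : ℝ) : ℂ) := by
        have h5 : (starRingEnd ℂ) (ψ s x) * ψ s x = ((‖ψ s x‖ ^ 2 : ℝ) : ℂ) := by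
          rw [← Complex.normSq_eq_conj_mul_self, Complex.normSq_eq_norm_sq]
        push_cast
        rw [← Complex.ofReal_pow, ← h5]
        ring
      have h6 : (Complex.I * ((V x * ‖ψ s x‖ ^ 2 : ℝ) : ℂ)).re = 0 := by
        rw [Complex.re_mul_ofReal, Complex.I_re, zero_mul]
      rw [h4, Complex.sub_re, h6, sub_zero]
    rw [h3] at h2
    exact h2
  have hSc : ∀ x, Continuous fun s => S (ψ s) x := by
    intro x
    unfold Pool.Agent.W788.LD.Spec.S
    exact continuous_finsetSum _ fun i _ => (hc _).add (hc _)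
  have hfc : ∀ x, Continuous fun s => fx (ψ s) x := by
    intro x
    unfold fx
    exact continuous_const.mul (Complex.continuous_re.comp
      ((Complex.continuous_conj.comp (hc x)).mul (continuous_const.mul (hSc x))))
  obtain ⟨F, hF⟩ : ∃ F : ℕ → Finset (Zd d), F = fun n => LO.bx (0 : Zd d) n := ⟨_, rfl⟩
  have hFt : Tendsto F atTop atTop := by
    refine tendsto_atTop_finset_of_monotone ?_ fun x => ?_
    · intro m n hmn x hx
      rw [hF] at hx ⊢
      rw [LO.Em.mem_bx] at hx ⊢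
      exact hx.trans hmn
    · refine ⟨⌊‖x‖⌋₊, ?_⟩
      rw [hF]
      exact Pool.Agent.W788.Gen3.norm_zd x ‖x‖ le_rfl
  have hN : ∀ s, Tendsto (fun n => ∑ x ∈ F n, ‖ψ s x‖ ^ 2) atTop (𝓝 (∑' x, ‖ψ s x‖ ^ 2)) :=
    fun s => (hs s).hasSum.comp hFt
  have hint : ∀ n, ∫ s in (0 : ℝ)..t, ∑ x ∈ F n, fx (ψ s) x =
      ∑ x ∈ F n, ‖ψ t x‖ ^ 2 - ∑ x ∈ F n, ‖ψ 0 x‖ ^ 2 := by
    intro n
    refine intervalIntegral.integral_eq_sub_of_hasDerivAt (f := fun s => ∑ x ∈ F n, ‖ψ s x‖ ^ 2)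
      (fun s _ => HasDerivAt.fun_sum fun x _ => hder x s) ?_
    exact (continuous_finsetSum _ fun x _ => hfc x).intervalIntegrable _ _
  have hlim : Tendsto (fun n => ∫ s in (0 : ℝ)..t, ∑ x ∈ F n, fx (ψ s) x) atTop
      (𝓝 (∫ _s in (0 : ℝ)..t, (0 : ℝ))) := by
    refine intervalIntegral.tendsto_integral_filter_of_dominated_convergence (fun _ => 4 * (d : ℝ))
      ?_ ?_ ?_ ?_
    · exact Eventually.of_forall fun n =>
        (continuous_finsetSum _ fun x _ => hfc x).aestronglyMeasurable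
    · exact Eventually.of_forall fun n => Eventually.of_forall fun s _ => by
        rw [Real.norm_eq_abs]
        exact fx_bd (ψ s) (hs s).hasSum (h1 s) (F n)
    · exact intervalIntegrable_const
    · exact Eventually.of_forall fun s _ => (fx_sum (ψ s) (hs s)).comp hFt
  simp only [hint] at hlim
  rw [intervalIntegral.integral_zero] at hlim
  have h2 := tendsto_nhds_unique hlim ((hN t).sub (hN 0))
  linarith

/-- **existence** -/
theorem exists_sol_all (V : Zd d → ℝ) (a : Zd d) : ∃ ψ : ℝ → Zd d → ℂ, Sol d V a ψ := by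
  obtain ⟨W, hW⟩ : ∃ W : ℕ → Zd d → ℝ, W = fun (n : ℕ) x => if ‖x‖ ≤ (n : ℝ) then V x else 0 := ⟨_, rfl⟩
  have hWx : ∀ (n : ℕ) x, ‖x‖ ≤ (n : ℝ) → W n x = V x := fun n x hx => by rw [hW]; exact if_pos hx
  have hWle : ∀ n x, |W n x| ≤ |V x| := by
    intro n x
    rw [hW]
    simp only
    split_ifs
    · exact le_rfl
    · simp
  have hWb : ∀ n, ∃ B : ℝ, ∀ x, |W n x| ≤ B := by
    intro n
    refine ⟨∑ x ∈ LO.bx (0 : Zd d) ⌊(n : ℝ)⌋₊, |V x|, fun x => ?_⟩
    by_cases hx : ‖x‖ ≤ n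
    · rw [hWx n x hx]
      exact Finset.single_le_sum (f := fun x => |V x|) (fun y _ => abs_nonneg _)
        (Pool.Agent.W788.Gen3.norm_zd x n hx)
    · rw [hW]
      simp only [if_neg hx, abs_zero]
      exact Finset.sum_nonneg fun y _ => abs_nonneg _
  have hex : ∀ n, ∃ ψ : ℝ → Zd d → ℂ, Sol d (W n) a ψ := fun n => by
    obtain ⟨B, hB⟩ := hWb n
    exact exists_sol (W n) B hB a
  choose φ hφ using hex
  obtain ⟨U, hU⟩ : ∃ U : Ultrafilter ℕ, U = hyperfilter ℕ := ⟨_, rfl⟩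
  have hUl : (U : Filter ℕ) ≤ atTop := by
    rw [hU]
    exact Nat.hyperfilter_le_atTop
  have hlim : ∀ s x, ∃ l, Tendsto (fun n => φ n s x) (U : Filter ℕ) (𝓝 l) := by
    intro s x
    obtain ⟨l, -, hl⟩ := (isCompact_closedBall (0 : ℂ) 1).ultrafilter_le_nhds
      (Ultrafilter.map (fun n => φ n s x) U) (by
        rw [Filter.le_principal_iff, Ultrafilter.mem_coe, Ultrafilter.mem_map]
        refine Filter.univ_mem' fun n => ?_
        simp only [mem_preimage, mem_closedBall_zero_iff]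
        exact (hφ n).le_one s x)
    exact ⟨l, hl⟩
  choose ψ hψ using hlim
  have hSl : ∀ s x, Tendsto (fun n => S (φ n s) x) (U : Filter ℕ) (𝓝 (S (ψ s) x)) := by
    intro s x
    unfold Pool.Agent.W788.LD.Spec.S
    exact tendsto_finsetSum _ fun i _ => (hψ s _).add (hψ s _)
  have hev : ∀ x : Zd d, ∀ᶠ n : ℕ in (U : Filter ℕ), W n x = V x := by
    intro x
    refine hUl ?_
    obtain ⟨N, hN⟩ := exists_nat_ge ‖x‖
    filter_upwards [eventually_ge_atTop N] with n hn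
    exact hWx n x (hN.trans (by exact_mod_cast hn))
  have hrl : ∀ s x, Tendsto (fun n => rhs (W n) (φ n s) x) (U : Filter ℕ)
      (𝓝 (rhs V (ψ s) x)) := by
    intro s x
    have h1 : Tendsto (fun n => rhs V (φ n s) x) (U : Filter ℕ) (𝓝 (rhs V (ψ s) x)) :=
      ((hSl s x).neg.add ((hψ s x).const_mul _)).const_mul _
    refine h1.congr' ?_
    filter_upwards [hev x] with n hn
    unfold rhs
    rw [hn]
  have hode : ∀ s x, HasDerivAt (fun s => ψ s x) (rhs V (ψ s) x) s := by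
    intro s x
    refine deriv_two (fun s => ψ s x) _ s (c2 V x) fun t => ?_
    have h1 : Tendsto (fun n => ‖φ n t x - φ n s x - ((t - s : ℝ) : ℂ) * rhs (W n) (φ n s) x‖)
        (U : Filter ℕ) (𝓝 ‖ψ t x - ψ s x - ((t - s : ℝ) : ℂ) * rhs V (ψ s) x‖) :=
      (((hψ t x).sub (hψ s x)).sub ((hrl s x).const_mul _)).norm
    refine le_of_tendsto' h1 fun n => ?_
    refine (sol_two (hφ n) s t x).trans ?_
    exact mul_le_mul_of_nonneg_right (c2_mono _ _ (hWle n) x) (sq_nonneg _)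
  have hfin : ∀ s (F : Finset (Zd d)), ∑ x ∈ F, ‖ψ s x‖ ^ 2 ≤ 1 := by
    intro s F
    refine le_of_tendsto' (tendsto_finsetSum F fun x _ => ((hψ s x).norm).pow 2) fun n => ?_
    have h1 := (hφ n).norm s
    rw [← h1.tsum_eq]
    exact h1.summable.sum_le_tsum F fun x _ => sq_nonneg _
  have hs : ∀ s, Summable fun x => ‖ψ s x‖ ^ 2 := fun s =>
    summable_of_sum_le (fun x => sq_nonneg _) (hfin s)
  have h1 : ∀ s, ∑' x, ‖ψ s x‖ ^ 2 ≤ 1 := fun s =>
    Real.tsum_le_of_sum_le (fun x => sq_nonneg _) (hfin s)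
  have hinit : ∀ x, ψ 0 x = if x = a then 1 else 0 := by
    intro x
    refine tendsto_nhds_unique (hψ 0 x) ?_
    simp only [fun n => (hφ n).init x]
    exact tendsto_const_nhds
  refine ⟨ψ, hinit, fun s x => hode s x, fun s => ?_⟩
  have h2 := conserve V ψ hode hs h1 s
  have h3 : ∑' x, ‖ψ 0 x‖ ^ 2 = 1 := by
    rw [tsum_eq_single a]
    · rw [hinit, if_pos rfl]
      norm_num
    · intro b hb
      rw [hinit, if_neg hb]
      norm_num
  rw [← h3, ← h2]
  exact (hs s).hasSum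

end Pool.Agent.V11260.GD
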