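import Pool.Agent.V11260.GD.EngG

/-! The characteristic function of the resolvent for Gaussian potentials, all scales. -/

set_option autoImplicit false
set_option linter.unusedSectionVars false

open scoped BigOperators Topology
open MeasureTheory ProbabilityTheory Filter Set

namespace Pool.Agent.V11260.GD

open Pool.Agent.W788.BK
open Pool.Agent.H4R2
open Pool.Agent.H4R2.LO (Zd)
open Pool.Agent.W788.BK.Num
open Pool.Agent.TH794.QD
open Pool.Agent.TH794.QE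
open Pool.Agent.TH794.HK
open Pool.Agent.TH794.FG (LS)
open Pool.Agent.TH794.LL2 (hexle)

/-- **Gaussian potentials, one coupling** -/
theorem gaussY (d : ℕ) (B : ℝ → Prop) (γ0 γ1 : ℝ → ℂ) (K : ℝ) (hK : 0 ≤ K)
    (hEng : EngG d B γ0 γ1 (4 * K))
    (hpos : ∀ E, B E → 0 < (γ0 E).im ∧ 0 ≤ (γ1 E).im ∧ (γ1 E).im ≤ (γ0 E).im) :
    ∃ y0 : ℝ, ∀ y : ℝ, y0 ≤ y → ∃ G : Set (Zd d → ℝ), MeasurableSet G ∧
      1 - Real.exp (-Real.exp (1 / 2600 * y)) ≤
        (Measure.infinitePi fun _ : Zd d => gaussianReal 0 1).real G ∧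
      ∀ ξ ∈ G, ∀ a : Zd d, ‖a‖ ≤ Real.exp (Real.exp (1 / 2600 * y)) → ∀ E : ℝ, B E →
        ∀ η : ℝ, Real.exp (-(81 / 40) * y) ≤ η → η ≤ Real.exp (-(161 / 80) * y) →
        ∀ ur ui : Zd d → ℝ, LS d (Real.exp (-(4000 / 3999) * y)) ξ
          (fun x => (Pi.single (M := fun _ => ℝ) 0 1 : Zd d → ℝ) (x - a)) (fun _ => 0) E η
            ur ui → ∀ p : Fin d → ℝ, ∑ i, p i ^ 2 ≤ K * (η * Real.exp (-(8000 / 3999) * y)) →
          ‖((η : ℝ) : ℂ) * ∑' x, ph p (x - a) * ((ur x ^ 2 + ui x ^ 2 : ℝ) : ℂ) -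
            ((Tg γ0 γ1 η (Real.exp (-(8000 / 3999) * y)) E p : ℝ) : ℂ)‖ ≤
              Real.exp (-(1 / 190) * y) := by
  obtain ⟨y0, h0⟩ := hEng
  obtain ⟨y2, hy2⟩ := Filter.eventually_atTop.1
    ((numP d).and ((ev2 4 (-(1 / 180)) (-(1 / 190)) 0 (by norm_num)).and
    ((ev2 (16 * K) (-(319 / 40)) (-(1 / 190)) 0 (by norm_num)).and
    ((ev2 (16 * K) (-1) (-(1 / 190)) 0 (by norm_num)).and
    ((ev2 2 (-(1 / 1500)) (-(2 / 3999)) 0 (by norm_num)).and
    ((ev1 1 (1 / 3999) 1 (by norm_num)).and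
    ((ev2 60 (-1) 0 0 (by norm_num)).and
    (ev1 (1 + Real.log 30) (1 / 3999) 1 (by norm_num)))))))))
  obtain ⟨y1, hy1⟩ : ∃ y1, y1 = max (max y0 y2) 1 := ⟨_, rfl⟩
  refine ⟨y1, fun y hyy1 => ?_⟩
  have hyy0 : y0 ≤ y := le_trans (by rw [hy1]; exact (le_max_left _ _).trans (le_max_left _ _)) hyy1
  have hyy2 : y2 ≤ y := le_trans (by rw [hy1]; exact (le_max_right _ _).trans (le_max_left _ _))
    hyy1
  have hyone : 1 ≤ y := le_trans (by rw [hy1]; exact le_max_right _ _) hyy1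
  obtain ⟨n1, n2, n3, n4, n5, n6, n7, n8⟩ := hy2 y hyy2
  simp only [pow_zero, mul_one, pow_one, zero_mul, Real.exp_zero] at n2 n3 n4 n5 n6 n7 n8
  -- the clipping
  obtain ⟨Bc, hBc⟩ : ∃ Bc, Bc = Real.exp (1 / 3999 * y) := ⟨_, rfl⟩
  have hBc0 : 0 < Bc := by rw [hBc]; positivity
  have hBc1 : 1 ≤ Bc := by
    rw [hBc]
    exact Real.one_le_exp (by linarith)
  rw [← hBc] at n1 n6 n8
  have hlog30 : 0 ≤ Real.log 30 := Real.log_nonneg (by norm_num)
  have heB : 30 * Real.exp (-Bc) ≤ Real.exp (-1 * y) := by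
    have e1 : 30 * Real.exp (-Bc) = Real.exp (Real.log 30 + -Bc) := by
      rw [Real.exp_add, Real.exp_log (by norm_num)]
    rw [e1]
    apply Real.exp_le_exp.2
    have : Real.log 30 ≤ Real.log 30 * y := le_mul_of_one_le_right hlog30 hyone
    linarith
  have hsmall : Real.exp (-1 * y) ≤ 1 / 2 := by linarith
  obtain ⟨v1, v2⟩ := var_cl Bc hBc1
  obtain ⟨Vv, hVv⟩ : ∃ Vv, ∫ s, s ^ 2 ∂(nu Bc) = Vv := ⟨_, rfl⟩
  rw [hVv] at v1 v2
  obtain ⟨Vb, hVb⟩ : ∃ Vb, Vb = Bc ^ 2 * Vv := ⟨_, rfl⟩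
  rw [← hVb] at v1 v2
  have hVbe : 1 - Vb ≤ Real.exp (-1 * y) := by linarith
  have hVb2 : 1 / 2 ≤ Vb := by linarith
  obtain ⟨S2, hS2⟩ : ∃ S2, S2 = Real.exp (-(8000 / 3999) * y) := ⟨_, rfl⟩
  have hS20 : 0 < S2 := by rw [hS2]; positivity
  have hBc2 : Bc ^ 2 = Real.exp (2 / 3999 * y) := by
    rw [hBc, ex_pow]
    congr 1
    push_cast
    ring
  have hs2V : Real.exp (-2 * y) * Vv = Vb * S2 := by
    have e1 : Real.exp (-2 * y) = S2 * Bc ^ 2 := by
      rw [hS2, hBc2, ex_mul]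
      congr 1
      ring
    rw [e1, hVb]
    ring
  have hVvl : Real.exp (-(1 / 1500) * y) ≤ Vv := by
    have e1 : Real.exp (-(2 / 3999) * y) * Bc ^ 2 = 1 := by
      rw [hBc2, ex_mul]
      norm_num
    have e2 : Vv = Real.exp (-(2 / 3999) * y) * Vb := by
      rw [hVb, ← mul_assoc, e1, one_mul]
    rw [e2]
    have h1 : Real.exp (-(2 / 3999) * y) * (1 / 2) ≤ Real.exp (-(2 / 3999) * y) * Vb := by gcongr
    linarith
  -- the net
  obtain ⟨τ, hτ⟩ : ∃ τ, τ = Real.exp (-(81 / 40) * y) := ⟨_, rfl⟩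
  obtain ⟨τ', hτ'⟩ : ∃ τ, τ = Real.exp (-(161 / 80) * y) := ⟨_, rfl⟩
  obtain ⟨ε, hε⟩ : ∃ ε, ε = Real.exp (-10 * y) := ⟨_, rfl⟩
  have hτ0 : 0 < τ := by rw [hτ]; positivity
  have hε0 : 0 < ε := by rw [hε]; positivity
  have hττ : τ ≤ τ' := by
    rw [hτ, hτ']
    exact hexle hyone _ _ (by norm_num)
  have hετ : ε ≤ τ := by
    rw [hε, hτ]
    exact hexle hyone _ _ (by norm_num)
  have hτ1 : τ' ≤ 1 := by
    rw [hτ']
    exact Real.exp_le_one_iff.2 (by linarith)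
  obtain ⟨tk, htk⟩ : ∃ tk : ℕ → ℝ, tk = fun k : ℕ => min (τ + ε * (k : ℝ)) τ' := ⟨_, rfl⟩
  have htkk : ∀ k, tk k = min (τ + ε * k) τ' := fun k => by rw [htk]
  have htkl : ∀ k, τ ≤ tk k := by
    intro k
    rw [htkk]
    refine le_min ?_ hττ
    have : 0 ≤ ε * (k : ℝ) := by positivity
    linarith
  have htku : ∀ k, tk k ≤ τ' := by
    intro k
    rw [htkk]
    exact min_le_right _ _
  obtain ⟨Kn, hKn⟩ : ∃ Kn : ℕ, Kn = ⌈Real.exp (10 * y)⌉₊ := ⟨_, rfl⟩
  have hK1 : Real.exp (10 * y) ≤ Kn := by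
    rw [hKn]
    exact Nat.le_ceil _
  have hK2 : (Kn : ℝ) + 1 ≤ Real.exp (13 * y + 2) := by
    have h1 := Nat.ceil_lt_add_one (Real.exp_pos (10 * y)).le
    rw [← hKn] at h1
    have h2 : (1 : ℝ) ≤ Real.exp (13 * y) := Real.one_le_exp (by linarith)
    have h5 : Real.exp (10 * y) ≤ Real.exp (13 * y) := Real.exp_le_exp.2 (by linarith)
    have h3 := Real.add_one_le_exp (2 : ℝ)
    rw [Real.exp_add]
    have h4 : Real.exp (13 * y) * 3 ≤ Real.exp (13 * y) * Real.exp 2 := by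
      apply mul_le_mul_of_nonneg_left _ (Real.exp_pos (13 * y)).le
      linarith only [h3]
    linarith only [h1, h2, h4, h5]
  -- the events
  choose Gk hGm hGP hGc hGL using fun k : ℕ => h0 y hyy0 (nu Bc) (nu_prob Bc) (nu_bd Bc)
    (nu_mean Bc) Vv hVv hVvl (tk k)
    (by rw [← hτ]; exact htkl k) (by rw [← hτ']; exact htku k)
  rw [hs2V] at hGL
  obtain ⟨Γ, hΓ⟩ : ∃ Γ, Γ = ⋂ k ∈ Finset.range (Kn + 1), Gk k := ⟨_, rfl⟩
  have hm : MeasurableSet Γ := by
    rw [hΓ]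
    exact Finset.measurableSet_biInter _ fun k _ => hGm k
  have e8 : Real.exp (y / 100) = Real.exp (1 / 100 * y) := by
    congr 1
    ring
  have e9 : Real.exp (y / 2500) = Real.exp (1 / 2500 * y) := by
    congr 1
    ring
  have hΓP : (Measure.infinitePi fun _ : Zd d => nu Bc).real Γᶜ ≤
      Real.exp (13 * y + 2) * Real.exp (-Real.exp (1 / 100 * y)) := by
    have hpr : IsProbabilityMeasure (nu Bc) := nu_prob Bc
    have e8' : Γᶜ = ⋃ k ∈ Finset.range (Kn + 1), (Gk k)ᶜ := by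
      rw [hΓ]
      simp only [Set.compl_iInter]
    rw [e8']
    have h4 : ∀ k, (Measure.infinitePi fun _ : Zd d => nu Bc).real (Gk k)ᶜ ≤
        Real.exp (-Real.exp (1 / 100 * y)) := by
      intro k
      have h5 := probReal_add_probReal_compl (μ := Measure.infinitePi fun _ : Zd d => nu Bc) (hGm k)
      have h6' := hGP k
      rw [e8] at h6'
      linarith
    refine (measureReal_biUnion_finset_le _ _).trans
      ((Finset.sum_le_sum fun k _ => h4 k).trans ?_)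
    rw [Finset.sum_const, Finset.card_range, nsmul_eq_mul]
    push_cast
    gcongr
  -- the unclipped box
  obtain ⟨ρ, hρ⟩ : ∃ ρ, ρ = Real.exp (Real.exp (1 / 2500 * y)) + Real.exp (7 * y) := ⟨_, rfl⟩
  have hρ1 : 1 ≤ ρ := by
    have h1 : 1 ≤ Real.exp (Real.exp (1 / 2500 * y)) := Real.one_le_exp (Real.exp_pos _).le
    have h2 := Real.exp_pos (7 * y)
    linarith
  rw [← hρ] at n1
  rw [e9, ← hρ] at hGc
  obtain ⟨A, hA⟩ : ∃ A : Set (Zd d → ℝ), A = ⋂ x ∈ LO.bx (0 : Zd d) ⌊ρ⌋₊,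
    {ξ : Zd d → ℝ | |ξ x| ≤ Bc} := ⟨_, rfl⟩
  have hAm : MeasurableSet A := by
    rw [hA]
    exact Finset.measurableSet_biInter _ fun x _ => measurableSet_le (by fun_prop) (by fun_prop)
  have hPA : (Measure.infinitePi fun _ : Zd d => gaussianReal 0 1).real Aᶜ ≤
      (3 * ρ) ^ d * (2 * Real.exp (-(Bc ^ 2 / 2))) := by
    have e1 : Aᶜ = ⋃ x ∈ LO.bx (0 : Zd d) ⌊ρ⌋₊, {ξ : Zd d → ℝ | Bc < |ξ x|} := by
      rw [hA]
      ext ξ
      simp
    rw [e1]
    have h1 : ∀ x ∈ LO.bx (0 : Zd d) ⌊ρ⌋₊,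
        (Measure.infinitePi fun _ : Zd d => gaussianReal 0 1).real {ξ : Zd d → ℝ | Bc < |ξ x|} ≤
          2 * Real.exp (-(Bc ^ 2 / 2)) := by
      intro x _
      have h2 : (Measure.infinitePi fun _ : Zd d => gaussianReal 0 1).map (fun ξ => ξ x) =
          gaussianReal 0 1 := Measure.infinitePi_map_eval _ x
      have hm : MeasurableSet {v : ℝ | Bc < |v|} := measurableSet_lt (by fun_prop) (by fun_prop)
      have h3 := tail Bc hBc0.le
      rw [← h2, map_measureReal_apply (measurable_pi_apply x) hm] at h3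
      exact h3
    refine (measureReal_biUnion_finset_le _ _).trans ((Finset.sum_le_sum h1).trans ?_)
    rw [Finset.sum_const, nsmul_eq_mul, LO.Em.card_bx]
    apply mul_le_mul_of_nonneg_right _ (by positivity)
    push_cast
    apply pow_le_pow_left₀ (by positivity)
    have := Nat.floor_le (show 0 ≤ ρ by linarith)
    linarith
  -- the map
  have hTm : Measurable (fun (ω : Zd d → ℝ) x => cl Bc (ω x)) :=
    measurable_pi_iff.2 fun x => (cl_meas Bc).comp (measurable_pi_apply x)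
  have hlaw : (Measure.infinitePi fun _ : Zd d => gaussianReal 0 1).map
      (fun (ω : Zd d → ℝ) x => cl Bc (ω x)) = Measure.infinitePi fun _ : Zd d => nu Bc :=
    Measure.infinitePi_map_pi (μ := fun _ : Zd d => gaussianReal 0 1)
      (f := fun _ (s : ℝ) => cl Bc s) (fun _ => cl_meas Bc)
  obtain ⟨G', hG'⟩ : ∃ G' : Set (Zd d → ℝ), G' = (fun (ω : Zd d → ℝ) x => cl Bc (ω x)) ⁻¹' Γ :=
    ⟨_, rfl⟩
  have hG'm : MeasurableSet G' := by
    rw [hG']
    exact hTm hm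
  have hPG : (Measure.infinitePi fun _ : Zd d => gaussianReal 0 1).real G'ᶜ ≤
      Real.exp (13 * y + 2) * Real.exp (-Real.exp (1 / 100 * y)) := by
    rw [← hlaw, map_measureReal_apply hTm hm.compl] at hΓP
    rw [hG']
    exact hΓP
  refine ⟨G' ∩ A, hG'm.inter hAm, ?_, ?_⟩
  · have h2 := probReal_add_probReal_compl
      (μ := Measure.infinitePi fun _ : Zd d => gaussianReal 0 1) (hG'm.inter hAm)
    have h4 : (Measure.infinitePi fun _ : Zd d => gaussianReal 0 1).real (G' ∩ A)ᶜ ≤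
        (Measure.infinitePi fun _ : Zd d => gaussianReal 0 1).real G'ᶜ +
        (Measure.infinitePi fun _ : Zd d => gaussianReal 0 1).real Aᶜ := by
      rw [Set.compl_inter]
      exact measureReal_union_le _ _
    linarith
  · intro ξ hξ a ha E hE η hηl hηu ur ui hLS p hp
    have hξ1 : (fun x => cl Bc (ξ x)) ∈ Γ := by
      have := hξ.1
      rw [hG'] at this
      exact this
    have hξ2 : ∀ x, ‖x‖ ≤ ρ → |ξ x| ≤ Bc := by
      intro x hx
      have h1 := hξ.2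
      rw [hA] at h1
      exact Set.mem_iInter₂.1 h1 x (Pool.Agent.W788.Gen3.norm_zd x ρ hx)
    rw [← hτ] at hηl
    rw [← hτ'] at hηu
    have hη0 : 0 < η := hτ0.trans_le hηl
    have ha' : ‖a‖ ≤ Real.exp (Real.exp (y / 2500)) := by
      refine ha.trans (Real.exp_le_exp.2 ?_)
      rw [e9]
      apply Real.exp_le_exp.2
      linarith
    -- the point of the net
    obtain ⟨k, hk⟩ : ∃ k : ℕ, k = ⌊(η - τ) / ε⌋₊ := ⟨_, rfl⟩
    have hq0 : 0 ≤ (η - τ) / ε := div_nonneg (by linarith) hε0.le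
    have hk1 : (k : ℝ) ≤ (η - τ) / ε := by
      rw [hk]
      exact Nat.floor_le hq0
    have hk2 : (η - τ) / ε < k + 1 := by
      rw [hk]
      exact Nat.lt_floor_add_one _
    rw [le_div_iff₀ hε0] at hk1
    rw [div_lt_iff₀ hε0] at hk2
    have hkt : tk k = τ + ε * k := by
      rw [htkk]
      apply min_eq_left
      linarith
    have hkK : k ≤ Kn := by
      have h1 : (k : ℝ) ≤ Kn := by
        have h2 : (k : ℝ) * ε ≤ 1 := by linarith
        have h3 : (k : ℝ) ≤ ε⁻¹ := by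
          rw [← one_div, le_div_iff₀ hε0]
          exact h2
        have h4 : ε⁻¹ = Real.exp (10 * y) := by
          rw [hε, ex_inv]
          norm_num
        rw [h4] at h3
        exact h3.trans hK1
      exact_mod_cast h1
    have htk1 : tk k ≤ η := by
      rw [hkt]
      linarith
    have htk2 : η ≤ tk k + ε := by
      rw [hkt]
      linarith
    have htk0 : 0 < tk k := hτ0.trans_le (htkl k)
    have h2t : η ≤ 2 * tk k := by
      have := htkl k
      linarith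
    have hξk : (fun x => ξ x / Bc) ∈ Gk k := by
      refine hGc k (fun x => cl Bc (ξ x)) (fun x => ξ x / Bc)
        (fun x hx => cl_eq hBc0 (hξ2 x hx)) ?_
      rw [hΓ] at hξ1
      exact Set.mem_iInter₂.1 hξ1 k (Finset.mem_range.2 (by omega))
    rw [← hS2] at hp ⊢
    have hs20 : 0 < Vb * S2 := by positivity
    have hp2 : ∑ i, p i ^ 2 ≤ 4 * K * (tk k * (Vb * S2)) := by
      refine hp.trans ?_
      calc K * (η * S2) ≤ K * (2 * tk k * (2 * Vb * S2)) := by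
            have : S2 ≤ 2 * Vb * S2 := le_mul_of_one_le_left hS20.le (by linarith)
            gcongr
        _ = _ := by ring
    have hp3 : ∑ i, p i ^ 2 ≤ 4 * K * (η * (Vb * S2)) := by
      refine hp2.trans ?_
      gcongr
    have hLS' : LS d (Real.exp (-1 * y)) (fun x => ξ x / Bc)
        (fun x => (Pi.single (M := fun _ => ℝ) 0 1 : Zd d → ℝ) (x - a)) (fun _ => 0) E η
          ur ui := by
      have e10 : Real.exp (-(4000 / 3999) * y) * Bc = Real.exp (-1 * y) := by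
        rw [hBc, ex_mul]
        norm_num
      have e11 : ∀ x, Real.exp (-1 * y) * (ξ x / Bc) = Real.exp (-(4000 / 3999) * y) * ξ x := by
        intro x
        rw [← e10]
        field_simp
      refine ⟨hLS.sr, hLS.si, fun x => ?_, fun x => ?_⟩
      · rw [e11]
        exact hLS.er x
      · rw [e11]
        exact hLS.ei x
    have hlaw1 := hGL k _ hξk a ha' E hE η htk1 (by rw [← hε]; exact htk2) ur ui hLS' p hp2
    obtain ⟨q1, q2, q3⟩ := hpos _ hE
    have hTd := Tg_diff γ0 γ1 (tk k) η (Vb * S2) E ε (4 * K) p htk0 htk1 htk2 hs20 (by positivity)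
      hp3 q1 q2 q3
    have hTv := Tg_var γ0 γ1 η (Vb * S2) S2 Vb E (4 * K) (Real.exp (-1 * y)) p hη0 hs20 hS20 rfl
      v2 hVbe (by positivity) hp3 q1 q2 q3
    obtain ⟨X, hX⟩ : ∃ X, X = ((η : ℝ) : ℂ) * ∑' x, ph p (x - a) *
      ((ur x ^ 2 + ui x ^ 2 : ℝ) : ℂ) := ⟨_, rfl⟩
    rw [← hX] at hlaw1 ⊢
    have e10 : X - ((Tg γ0 γ1 η S2 E p : ℝ) : ℂ) =
        (X - ((Tg γ0 γ1 (tk k) (Vb * S2) E p : ℝ) : ℂ)) +
        ((Tg γ0 γ1 (tk k) (Vb * S2) E p - Tg γ0 γ1 η (Vb * S2) E p : ℝ) : ℂ) +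
        ((Tg γ0 γ1 η (Vb * S2) E p - Tg γ0 γ1 η S2 E p : ℝ) : ℂ) := by
      push_cast
      ring
    rw [e10]
    have h5 : 4 * K * (ε * (tk k)⁻¹) ≤ 4 * K * Real.exp (-(319 / 40) * y) := by
      have h6 : (tk k)⁻¹ ≤ τ⁻¹ := inv_anti₀ hτ0 (htkl k)
      calc 4 * K * (ε * (tk k)⁻¹) ≤ 4 * K * (ε * τ⁻¹) := by gcongr
        _ = _ := by
          rw [hε, hτ, ex_inv, ex_mul]
          norm_num
    refine (norm_add₃_le).trans ?_
    rw [Complex.norm_real, Real.norm_eq_abs, Complex.norm_real, Real.norm_eq_abs]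
    have h7 := Real.exp_pos (-(1 / 180) * y)
    linarith

end Pool.Agent.V11260.GD
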