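import Pool.Agent.TH794.HK.LatK

/-! The lattice event depends only on finitely many sites. -/

set_option autoImplicit false
set_option linter.unusedSectionVars false

open scoped BigOperators Matrix
open MeasureTheory

namespace Pool.Agent.V11260.GD

open Pool.Agent.TH794.HK
open Pool.Agent.W788.BK
open Pool.Agent.W788
open Pool.Agent.W788.MFP.Four Pool.Agent.W788.MFP.Dos Pool.Agent.W788.MFP.Form
open Pool.Agent.W788.MFP.Ball Pool.Agent.W788.MFP.Crit Pool.Agent.W788.MFP.Cut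
open Pool.Agent.W788.MFP.Site Pool.Agent.W788.MF2.Dom Pool.Agent.W788.MF2.FinG
open Pool.Agent.W788.MF2.FormG Pool.Agent.W788.LD.Main Pool.Agent.H4R2
open Pool.Agent.H4R2.LO (Zd)
open Pool.Agent.H695R3.AN (lf lf_inj lf_add lf_sub)
open Pool.Agent.TH794.LL2 (Bq Bq_nonneg cut2)
open Pool.Agent.TH794.FG
open Pool.Agent.TH794.QD
open Pool.Agent.TH794.QE

variable {d L : ℕ} [NeZero L]

/-- the representatives are bounded by the side -/
theorem lf_norm (y : T d L) : ‖(lf y : Zd d)‖ ≤ L := by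
  rw [pi_norm_le_iff_of_nonneg (by positivity)]
  intro i
  have h1 : ((y i).valMinAbs).natAbs ≤ L / 2 := ZMod.natAbs_valMinAbs_le (y i)
  have h2 : (L / 2 : ℕ) ≤ L := Nat.div_le_self _ _
  have h3 : ((lf y : Zd d) i) = (y i).valMinAbs := rfl
  rw [h3, Int.norm_eq_abs, ← Int.cast_abs, Int.abs_eq_natAbs]
  exact_mod_cast h1.trans h2

/-- the points of the box -/
theorem zd_norm (a : Zd d) (R : ℝ) (hR : 0 ≤ R) (h : a ∈ LO.bx (0 : Zd d) ⌊R⌋₊) : ‖a‖ ≤ R := by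
  rw [LO.Em.mem_bx] at h
  have h5 := LO.Em.dd_norm a (0 : Zd d)
  rw [sub_zero, LO.Em.dd_comm] at h5
  rw [← h5]
  have h6 : ((LO.dd (0 : Zd d) a : ℕ) : ℝ) ≤ (⌊R⌋₊ : ℝ) := by exact_mod_cast h
  exact h6.trans (Nat.floor_le hR)

/-- **the lattice event** -/
theorem mainG (hd : 1 ≤ d) (B B' : ℝ → Prop) (Tgt : ℝ → (Fin d → ℝ) → ℝ) (μ : Measure ℝ)
    [IsProbabilityMeasure μ] (c : ℝ)
    (hμ : DomBy μ c) (σ R δ θ η κ g1 ρ τ Kf ζ ω1 W s e3 em e4 Kt ℓ : ℝ) (M : ℕ) (hσ : 0 < σ)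
    (hR : 1 ≤ R) (hδ : 0 < δ) (hδ1 : δ ≤ 1 / 2) (hη : 0 < η) (hη1 : η ≤ 1)
    (ht1 : η * δ + ζ ≤ 1) (hζt : ζ ≤ η * δ)
    (hκ : 0 < κ) (hκ2 : κ ≤ 1 / 2)
    (hζ : 0 < ζ) (hM : W + ζ ≤ ζ * M)
    (hB' : ∀ E, B' E → |E| ≤ W ∧ ∀ j : ℤ, |E - ζ * j| ≤ ζ → B (ζ * j))
    (hg : ∀ E, ∑ k : T d L, (JJ E δ k)⁻¹ ≤ g1 * NN d L) (hg0 : 0 ≤ g1)
    (hρ0 : 0 ≤ ρ) (hτ : 0 ≤ τ) (hKf : 0 ≤ Kf)
    (ρ' : ℝ) (hρ' : ρ' = 2 * (ρ + ζ * (η * δ)⁻¹) + 2 * (ζ * (η * δ)⁻¹))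
    (h1 : 2 * (τ / (η * δ) + 2 * (κ + η)) * (Kf + ρ' / (η * δ)) +
      2 * Real.sqrt Kf * (2 * (Real.sqrt η * Real.sqrt g1) +
        3 * (ρ' / Real.sqrt (η * δ))) + ρ' / (η * δ) ≤ 1)
    (hκ' : τ / (η * δ) + 2 * (κ + η) ≤ 1)
    (Bb : ℝ) (hB : Bb = Real.sqrt ((Kf + 1) / (η * δ)))
    (hs : s = (Real.sqrt η)⁻¹ * ((Real.sqrt δ)⁻¹ * (ρ' + τ * Bb) + η * (2 * Real.sqrt g1 +
      2 * (κ + η) * (Real.sqrt δ * Bb) + 2 * ((Real.sqrt δ)⁻¹ * ρ'))))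
    (he3 : 2 * Real.sqrt Kf * s + s ^ 2 + 2 * ω1 + ζ * ((Kf + 1) / (η * δ)) ≤ e3)
    (hℓ0 : 0 < ℓ) (hL : 4 * ℓ + 4 < L) (hρℓ : 2 * d / ℓ * (η * δ)⁻¹ ≤ ρ)
    (hmean : ∀ E1 E : ℝ, B E1 → B' E → |E1 - E| ≤ ζ → ∀ (p : Fin d → ℝ) (n : Fin d → ℤ),
      (∀ i, |p i - 2 * Real.pi * n i / L| ≤ 7 / L) → ∑ i, p i ^ 2 ≤ Kt →
      ‖∫ U, FP (d := d) (L := L) E1 δ θ η (fun i => ((n i : ℤ) : ZMod L)) U
        ∂(PP (T d L) (μ.map fun s => σ * s)) - ((Tgt E p : ℝ) : ℂ)‖ ≤ em)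
    (he4 : e3 + em + (4 * d * ((η * δ)⁻¹) ^ 4 / ℓ ^ 2 + 28 * d * (ℓ / L) * (Kf + 1)) ≤ e4)
    (p : ℕ) (hp : p ≠ 0) (ε1 ε : ℝ)
    (hgood : (PP (T d L) (μ.map fun s => σ * s)).real
      (GoodK (d := d) (L := L) B (μ.map fun s => σ * s) δ θ η τ ζ Kf ω1 M)ᶜ ≤ ε1)
    (hε : (3 * R) ^ d * ((8 * d / δ) * ((8 * p * g1 * c ^ 2 * σ ^ 2 / (δ * κ ^ 2)) ^ p *
      (L : ℝ) ^ d) + ε1) ≤ ε) :
    ∃ G : Set (Zd d → ℝ), MeasurableSet G ∧
      1 - ε ≤ (Measure.infinitePi fun _ : Zd d => μ).real G ∧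
      (∀ ξ ξ' : Zd d → ℝ, (∀ x, ‖x‖ ≤ R + L → ξ x = ξ' x) → ξ ∈ G → ξ' ∈ G) ∧
      ∀ ξ ∈ G, QLawK d B' Tgt σ R (η * δ) ζ Kt e4 ξ := by
  have hmeas : MeasurableSet (GoodK (d := d) (L := L) B (μ.map fun s => σ * s) δ θ η τ ζ Kf ω1 M) :=
    goodK_meas B _ δ θ η τ ζ Kf ω1 M hη
  have ht : 0 < η * δ := by positivity
  have hGB : GB d L δ g1 := by
    intro E
    have e1 := hg E
    rw [inv_mul_le_iff₀ NN_pos]
    have e2 : ∑ k : T d L, (J E δ k)⁻¹ = ∑ k : T d L, (JJ E δ k)⁻¹ := rfl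
    rw [e2]
    linarith
  obtain ⟨G1, hG1, hP1, hb⟩ := formE (d := d) (L := L) hd μ c hμ δ g1 hδ hδ1 hGB
    (κ / (2 * σ)) (by positivity) p hp
  have hsm : Measurable fun (V : T d L → ℝ) y => σ * V y := by fun_prop
  obtain ⟨G2, hG2⟩ : ∃ G2, G2 = (fun (V : T d L → ℝ) y => σ * V y) ⁻¹'
    GoodK (d := d) (L := L) B (μ.map fun s => σ * s) δ θ η τ ζ Kf ω1 M := ⟨_, rfl⟩
  have hG2m : MeasurableSet G2 := by
    rw [hG2]
    exact hsm hmeas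
  have hpm : IsProbabilityMeasure (μ.map fun s => σ * s) :=
    Measure.isProbabilityMeasure_map (by fun_prop)
  have hP2 : (Measure.pi fun _ : T d L => μ).real G2ᶜ ≤ ε1 := by
    have e1 : PP (T d L) (μ.map fun s => σ * s) =
        (Measure.pi fun _ : T d L => μ).map (fun (V : T d L → ℝ) y => σ * V y) := by
      unfold PP
      rw [Measure.pi_map_pi (μ := fun _ : T d L => μ) (f := fun _ (s : ℝ) => σ * s)]
      intro i
      fun_prop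
    rw [e1, map_measureReal_apply hsm hmeas.compl] at hgood
    rw [hG2]
    exact hgood
  have hG : MeasurableSet (G1 ∩ G2) := hG1.inter hG2m
  have hP : (3 * R) ^ d * (Measure.pi fun _ : T d L => μ).real (G1 ∩ G2)ᶜ ≤ ε := by
    refine le_trans ?_ hε
    apply mul_le_mul_of_nonneg_left _ (by positivity)
    rw [Set.compl_inter]
    refine (measureReal_union_le _ _).trans (add_le_add ?_ hP2)
    refine hP1.trans ?_
    apply mul_le_mul_of_nonneg_left _ (by positivity)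
    have e1 : 2 * p * g1 * δ⁻¹ * c ^ 2 / (κ / (2 * σ)) ^ 2 =
        8 * p * g1 * c ^ 2 * σ ^ 2 / (δ * κ ^ 2) := by
      field_simp
      ring
    rw [e1]
    exact le_refl _
  set Bx : Finset (Zd d) := LO.bx (0 : Zd d) ⌊R⌋₊ with hBx
  set Rr : Zd d → (Zd d → ℝ) → (T d L → ℝ) := fun a ω y => ω (lf y + a) with hRr
  have hRm : ∀ a, Measurable (Rr a) := fun a => measurable_pi_iff.2 fun y => measurable_pi_apply _
  have hPa : ∀ a, (Measure.infinitePi fun _ : Zd d => μ).real (Rr a ⁻¹' (G1 ∩ G2))ᶜ =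
      (Measure.pi fun _ : T d L => μ).real (G1 ∩ G2)ᶜ := by
    intro a
    have h1 : (Measure.infinitePi fun _ : Zd d => μ).real (Rr a ⁻¹' (G1 ∩ G2)ᶜ) =
        (Measure.pi fun _ : T d L => μ).real (G1 ∩ G2)ᶜ := by
      rw [← Gen3.law_shift (d := d) (L := L) μ a, map_measureReal_apply (hRm a) hG.compl]
    exact h1
  have hm : MeasurableSet (⋂ a ∈ Bx, Rr a ⁻¹' (G1 ∩ G2)) :=
    Finset.measurableSet_biInter _ fun a _ => hRm a hG
  refine ⟨⋂ a ∈ Bx, Rr a ⁻¹' (G1 ∩ G2), hm, ?_, ?_, ?_⟩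
  · have h2 := probReal_add_probReal_compl (μ := Measure.infinitePi fun _ : Zd d => μ) hm
    have h3 : (Measure.infinitePi fun _ : Zd d => μ).real (⋂ a ∈ Bx, Rr a ⁻¹' (G1 ∩ G2))ᶜ ≤
        (3 * R) ^ d * (Measure.pi fun _ : T d L => μ).real (G1 ∩ G2)ᶜ := by
      have e1 : (⋂ a ∈ Bx, Rr a ⁻¹' (G1 ∩ G2))ᶜ = ⋃ a ∈ Bx, (Rr a ⁻¹' (G1 ∩ G2))ᶜ := by
        simp only [Set.compl_iInter]
      rw [e1]
      refine (measureReal_biUnion_finset_le _ _).trans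
        ((Finset.sum_le_sum fun a _ => (hPa a).le).trans ?_)
      rw [Finset.sum_const, nsmul_eq_mul, hBx, LO.Em.card_bx]
      apply mul_le_mul_of_nonneg_right _ measureReal_nonneg
      push_cast
      apply pow_le_pow_left₀ (by positivity)
      have := Nat.floor_le (show 0 ≤ R by linarith)
      linarith
    linarith
  · intro ξ ξ' hξξ hξ
    refine Set.mem_iInter₂.2 fun a haB => ?_
    have h1 : Rr a ξ ∈ G1 ∩ G2 := Set.mem_iInter₂.1 hξ a haB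
    have h2 : Rr a ξ' = Rr a ξ := by
      funext y
      have h3 : ‖(lf y : Zd d) + a‖ ≤ R + L := by
        refine (norm_add_le _ _).trans ?_
        have := lf_norm y
        have := zd_norm a R (by linarith) haB
        linarith
      exact (hξξ _ h3).symm
    change Rr a ξ' ∈ G1 ∩ G2
    rw [h2]
    exact h1
  · intro ξ hξ a ha E hBE' t' htt htt' ur ui hLS pv hpv
    obtain ⟨hE, hBj⟩ := hB' E hBE'
    have haB : a ∈ Bx := Gen3.norm_zd a R ha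
    have hV : Rr a ξ ∈ G1 ∩ G2 := Set.mem_iInter₂.1 hξ a haB
    have hV2 := hV.2
    rw [hG2] at hV2
    have ht'0 : 0 < t' := ht.trans_le htt
    have hLS0 : LS d σ (fun x => ξ (x + a)) (Pi.single 0 1) (fun _ => 0) E t'
        (fun x => ur (x + a)) (fun x => ui (x + a)) :=
      LS.shift (fr := Pi.single 0 1) (fi := fun _ => 0) a hLS
    obtain ⟨vr, vi, rr, ri, hs1, hv1, hv2, hfin⟩ :=
      tor_chi (L := L) ℓ hℓ0 hL ht'0 (by linarith) hd hLS0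
    have hti : t'⁻¹ ≤ (η * δ)⁻¹ := inv_anti₀ ht htt
    have hform : ∀ (E : ℝ) (w : T d L → ℝ),
        |∑ x, (σ * ξ (lf x + a)) * w x ^ 2| ≤ κ * q (JJ E δ) w := by
      intro E w
      have e1 := hb _ hV.1 E w
      have e2 : ∑ x, (σ * ξ (lf x + a)) * w x ^ 2 = σ * ∑ x, Rr a ξ x * w x ^ 2 := by
        rw [Finset.mul_sum]
        exact Finset.sum_congr rfl fun x _ => by rw [hRr]; ring
      rw [e2, abs_mul, abs_of_pos hσ]
      calc σ * |∑ x, Rr a ξ x * w x ^ 2| ≤ σ * (2 * (κ / (2 * σ)) * q (J E δ) w) :=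
            mul_le_mul_of_nonneg_left e1 hσ.le
        _ = κ * q (J E δ) w := by
            field_simp
        _ = _ := rfl
    obtain ⟨i, hEi, hBi, hBq, hq⟩ := torK B (μ.map fun s => σ * s) δ θ η κ g1 ρ τ Kf ζ ω1 W t' M
      hδ hη hη1 hκ hκ2 hζ hM (fun y => σ * ξ (lf y + a)) hV2 hform hg hg0 hρ0 hτ hKf ρ' hρ'
      h1 hκ' Bb s e3 hB hs he3 E hE hBj (by
        rw [abs_of_nonneg (by linarith)]
        linarith) vr vi rr ri hs1 (hv2.trans (le_trans (by gcongr) hρℓ)) (hv1.trans hti)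
    -- the momenta
    have hLp : (0 : ℝ) < L := by
      linarith
    obtain ⟨n, hn⟩ : ∃ n : Fin d → ℤ, n = fun i => ⌊pv i * L / (2 * Real.pi)⌋ := ⟨_, rfl⟩
    have hπ := Real.pi_pos
    have hpn : ∀ i, |pv i - 2 * Real.pi * n i / L| ≤ 7 / L := by
      intro i
      have a1 := Int.floor_le (pv i * L / (2 * Real.pi))
      have a2 := Int.lt_floor_add_one (pv i * L / (2 * Real.pi))
      have e1 : pv i - 2 * Real.pi * n i / L =
          2 * Real.pi / L * (pv i * L / (2 * Real.pi) - n i) := by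
        field_simp
      rw [e1, abs_mul, abs_of_pos (by positivity), hn]
      have a3 : |pv i * L / (2 * Real.pi) - (⌊pv i * L / (2 * Real.pi)⌋ : ℝ)| ≤ 1 := by
        rw [abs_le]
        constructor <;> linarith
      calc 2 * Real.pi / L * |pv i * L / (2 * Real.pi) - (⌊pv i * L / (2 * Real.pi)⌋ : ℝ)| ≤
            2 * Real.pi / L * 1 := by gcongr
        _ ≤ 7 / L := by
            rw [mul_one]
            apply div_le_div_of_nonneg_right _ hLp.le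
            have := Real.pi_lt_d2
            linarith
    have c1 := hfin pv n (7 / L) (by positivity) hpn
    have c2 := hq (fun i => ((n i : ℤ) : ZMod L))
    have c3 := hmean (ζ * i) E hBi hBE' (by rw [abs_sub_comm]; exact hEi) pv n hpn hpv
    have e5 : ∑' x, ph pv (x - a) * ((ur x ^ 2 + ui x ^ 2 : ℝ) : ℂ) =
        chiZ pv (fun x => ur (x + a)) (fun x => ui (x + a)) := by
      unfold chiZ
      rw [← (Equiv.addRight a).tsum_eq fun x => ph pv (x - a) * ((ur x ^ 2 + ui x ^ 2 : ℝ) : ℂ)]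
      refine tsum_congr fun x => ?_
      simp only [Equiv.coe_addRight, add_sub_cancel_right]
    rw [e5]
    obtain ⟨X, hX⟩ : ∃ X, X = chiZ pv (fun x => ur (x + a)) (fun x => ui (x + a)) := ⟨_, rfl⟩
    obtain ⟨Y, hY⟩ : ∃ Y, Y = chiT (fun i => ((n i : ℤ) : ZMod L)) vr vi := ⟨_, rfl⟩
    rw [← hX] at c1 ⊢
    rw [← hY] at c1 c2
    have c4 : ‖((t' : ℝ) : ℂ) * (X - Y)‖ ≤
        4 * d * ((η * δ)⁻¹) ^ 4 / ℓ ^ 2 + 28 * d * (ℓ / L) * (Kf + 1) := by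
      rw [norm_mul, Complex.norm_real, Real.norm_of_nonneg ht'0.le]
      have b1 : t' * ‖X - Y‖ ≤ t' * (4 * d * (t'⁻¹) ^ 4 / ℓ ^ 2 +
          d * (7 / L * (2 * ℓ)) * Bq vr vi) := mul_le_mul_of_nonneg_left c1 ht'0.le
      have b2 : t' * (4 * d * (t'⁻¹) ^ 4 / ℓ ^ 2) ≤ 4 * d * ((η * δ)⁻¹) ^ 4 / ℓ ^ 2 := by
        have h5 : t' ≤ 1 := by linarith
        have h6 : 0 ≤ t'⁻¹ := by positivity
        calc t' * (4 * d * (t'⁻¹) ^ 4 / ℓ ^ 2) ≤ 1 * (4 * d * ((η * δ)⁻¹) ^ 4 / ℓ ^ 2) := by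
              gcongr
          _ = _ := one_mul _
      have b3 : t' * (d * (7 / L * (2 * ℓ)) * Bq vr vi) ≤ 28 * d * (ℓ / L) * (Kf + 1) := by
        have h5 : t' ≤ 2 * (η * δ) := by linarith
        have h6 := Bq_nonneg vr vi
        calc t' * (d * (7 / L * (2 * ℓ)) * Bq vr vi) ≤
              (2 * (η * δ)) * (d * (7 / L * (2 * ℓ)) * ((Kf + 1) / (η * δ))) := by gcongr
          _ = _ := by
              field_simp
              ring
      rw [mul_add] at b1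
      linarith
    have e6 : ((t' : ℝ) : ℂ) * X - ((Tgt E pv : ℝ) : ℂ) = ((t' : ℝ) : ℂ) * (X - Y) +
        (((t' : ℝ) : ℂ) * Y - ∫ U, FP (d := d) (L := L) (ζ * i) δ θ η
          (fun i => ((n i : ℤ) : ZMod L)) U ∂(PP (T d L) (μ.map fun s => σ * s))) +
        (∫ U, FP (d := d) (L := L) (ζ * i) δ θ η (fun i => ((n i : ℤ) : ZMod L)) U
          ∂(PP (T d L) (μ.map fun s => σ * s)) - ((Tgt E pv : ℝ) : ℂ)) := by
      ring
    rw [e6]
    refine (norm_add_le _ _).trans ((add_le_add ((norm_add_le _ _).trans (add_le_add c4 c2))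
      c3).trans ?_)
    linarith

end Pool.Agent.V11260.GD
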