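import Pool.Agent.V11260.GD.Sig
import Pool.Agent.V11260.Loc.Fin
import Pool.Agent.V11260.QT.Edge

/-! Localization lengths, for Gaussian potentials. -/

set_option autoImplicit false

open MeasureTheory ProbabilityTheory Set Filter
open scoped BigOperators Topology ENNReal

namespace Pool.Agent.V11260.GD

open Pool.Agent.V11260.Loc
open Pool.Agent.W788.BK
open Pool.Agent.H4R2.LO (Zd)
open Pool.Agent.W788.LD.Spec (S)
open Pool.Agent.TH794.QD (GF F0 F1)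
open Pool.Agent.TH794.QE (Rs RegE)
open Pool.Agent.TH794.HK (ph Tg EngK)
open Pool.Agent.V11260.QT

/-- **localization lengths** -/
theorem loc_gauss (hES : S_ES) (hTH : S_THIRD) (hFL : S_FLUCT) (hIN : S_INV)
    (hSU : S_SUP) (hQB : S_QB) (hLO : S_LOW) (hAD : S_ADM) (hFA : S_FAC) (hO : S_OSC)
    (d : ℕ) (hd : 3 ≤ d) (κ : ℝ) (hκ : 0 < κ) (hκ1 : κ ≤ 1) : ∃ m0 : ℝ, 0 < m0 ∧
    ∀ C δ ε : ℝ, 0 < δ → δ ≤ 1 → 0 < ε →
    ∃ c0 : ℝ, 0 < c0 ∧ ∀ c : ℝ, 0 < c → c ≤ c0 →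
      ∃ G : Set (Zd d → ℝ), MeasurableSet G ∧
        1 - Real.exp (-c ^ (-(1 / 3000) : ℝ)) ≤
          (Measure.infinitePi fun _ : Zd d => gaussianReal 0 1).real G ∧
        ∀ ω ∈ G,
          ∀ a : Zd d, ‖a‖ ≤ Real.exp (c ^ (-(1 / 3000) : ℝ)) →
          ∀ e : ℝ, |e| ≤ 2 * d - κ →
          ∀ u : Zd d → ℂ, Rs d (fun x => -(c * ω x)) a e (c ^ (83 / 41 : ℝ)) u →
            m0 ≤ c ^ (83 / 41 : ℝ) * ∑' x, ‖u x‖ ^ 2 ∧
            ∀ {ι : Type} (φ : ι → H2 d), Orthonormal ℂ φ → ∀ E : ι → ℝ,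
              (∀ n x, -S (φ n) x + ((-(c * ω x) : ℝ) : ℂ) * φ n x = (E n : ℂ) * φ n x) →
              ∀ cen : ι → Zd d, (∀ n x, ‖φ n x‖ ≤
                c ^ (-C) * Real.exp (-(c ^ (165 / 82 - δ) * ‖x - cen n‖))) →
              ∀ F : Finset ι, ∑ n ∈ F, ‖φ n a‖ ^ 2 *
                (c ^ (83 / 41 : ℝ) / ((E n - e) ^ 2 + (c ^ (83 / 41 : ℝ)) ^ 2)) ≤ ε := by
  obtain ⟨⟨m1, hm1, h2⟩, h3⟩ := gaussS hES hTH hFL hIN hSU hQB hLO hAD hFA hO d hd κ hκ hκ1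
  obtain ⟨γ0, hγ0⟩ : ∃ γ0 : ℝ → ℂ, γ0 = fun E : ℝ => GF (F0 d) (E : ℂ) := ⟨_, rfl⟩
  obtain ⟨γ1, hγ1⟩ : ∃ γ1 : ℝ → ℂ, γ1 = fun E : ℝ => GF (F1 d) (E : ℂ) := ⟨_, rfl⟩
  rw [← hγ0, ← hγ1] at h3
  have h2a : ∀ E, |E| ≤ 2 * d - κ → m1 ≤ (γ1 E).im := fun E hE => by
    rw [hγ1]; exact (h2 E hE).1
  have h2b : ∀ E, |E| ≤ 2 * d - κ → (γ1 E).im ≤ (γ0 E).im := fun E hE => by
    rw [hγ0, hγ1]; exact (h2 E hE).2
  obtain ⟨Cu, hCu, hub⟩ : ∃ Cu : ℝ, 1 ≤ Cu ∧ ∀ E, |E| ≤ 2 * d - κ → (γ0 E).im ≤ Cu := by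
    obtain ⟨C, hC⟩ := isCompact_Icc.exists_bound_of_continuousOn
      (s := Icc (-(2 * d : ℝ)) (2 * d)) (Pool.Agent.V11260.QT.g0_cont hO d hd).continuousOn
    refine ⟨max C 1, le_max_right _ _, fun E hE => ?_⟩
    have h5 := hC E (abs_le.1 (by linarith))
    have h6 := (Complex.abs_im_le_norm (GF (F0 d) ((E : ℝ) : ℂ)))
    have h7 := le_abs_self (GF (F0 d) ((E : ℝ) : ℂ)).im
    have h8 := le_max_left C 1
    rw [hγ0]
    linarith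
  refine ⟨m1 / 2, half_pos hm1, fun C δ ε hδ hδ1 hε => ?_⟩
  obtain ⟨Kz, hKz, hZb⟩ := Zb d
  -- the parameters
  obtain ⟨N, hN⟩ : ∃ N : ℕ, N = ⌈16 * (Cu + 1) / ε⌉₊ + 1 := ⟨_, rfl⟩
  have hN1 : 1 ≤ N := by omega
  have hN0 : (0 : ℝ) < N := by exact_mod_cast hN1
  have hNε : 4 * (Cu + 1) / N ≤ ε / 4 := by
    have h4 : 16 * (Cu + 1) / ε ≤ N := by
      have h5 := Nat.le_ceil (16 * (Cu + 1) / ε)
      rw [hN]
      push_cast
      linarith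
    rw [div_le_iff₀ hε] at h4
    rw [div_le_iff₀ hN0]
    linarith
  obtain ⟨L2, hL2⟩ : ∃ L2, L2 = 32 * Cu ^ 3 / (ε * m1) := ⟨_, rfl⟩
  have hCu0 : 0 < Cu := by linarith
  have hL20 : 0 < L2 := by rw [hL2]; positivity
  obtain ⟨c1, hc1, h4⟩ := h3 (N ^ 2 * L2) (by positivity)
  obtain ⟨κ1, hκ1'⟩ : ∃ κ1, κ1 = 1 / (4 * (N * Real.sqrt L2)) := ⟨_, rfl⟩
  have hκ10 : 0 < κ1 := by rw [hκ1']; positivity
  obtain ⟨P, hP⟩ : ∃ P, P = 83 / 41 + 4 * C + (165 / 82 - δ) * (3 * (d + 1)) := ⟨_, rfl⟩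
  obtain ⟨Kt, hKt⟩ : ∃ Kt, Kt = 2 * (Cu + 1) * (Kz ^ 3 * 4 ^ (3 * (d + 1))) := ⟨_, rfl⟩
  obtain ⟨c2, hc2, hnum⟩ := ev_ex (((small_ev 3 (1 / 200) (ε / 32) (by norm_num)
    (by positivity)).and (small_ev 1 (1 / 200) (min (m1 / 2) 1) (by norm_num)
    (lt_min (half_pos hm1) one_pos))).and (exp_ev Kt P κ1 δ (ε / 2) hκ10 hδ (by positivity)))
  refine ⟨min (min c1 c2) 1, lt_min (lt_min hc1 hc2) one_pos,
    fun c hc hcc => ?_⟩
  obtain ⟨⟨n1, n2⟩, n3⟩ := hnum c hc (hcc.trans ((min_le_left _ _).trans (min_le_right _ _)))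
  have hcle1 : c ≤ 1 := hcc.trans (min_le_right _ _)
  obtain ⟨G, hG, hGP, hL⟩ := h4 c hc (hcc.trans ((min_le_left _ _).trans (min_le_left _ _)))
  refine ⟨G, hG, hGP, fun ω hω a ha e he u hu => ?_⟩
  have hL' := hL ω hω a ha (-e) (by rw [abs_neg]; exact he)
  obtain ⟨η, hη⟩ : ∃ η, η = c ^ (83 / 41 : ℝ) := ⟨_, rfl⟩
  rw [← hη] at hu ⊢
  have hη0 : 0 < η := by rw [hη]; positivity
  have hη1 : c ^ (40489 / 20000 : ℝ) ≤ η := by
    rw [hη]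
    exact Real.rpow_le_rpow_of_exponent_ge hc hcle1 (by norm_num)
  have hη2 : η ≤ c ^ (20123 / 10000 : ℝ) := by
    rw [hη]
    exact Real.rpow_le_rpow_of_exponent_ge hc hcle1 (by norm_num)
  have hηle : η ≤ 1 := by
    rw [hη]
    exact Real.rpow_le_one hc.le hcle1 (by norm_num)
  obtain ⟨s2, hs2⟩ : ∃ s2, s2 = c ^ 2 := ⟨_, rfl⟩
  have hs20 : 0 < s2 := by rw [hs2]; positivity
  rw [← hs2] at hL'
  obtain ⟨E0, hE0⟩ : ∃ E0, E0 = -e := ⟨_, rfl⟩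
  have hB : |E0| ≤ 2 * d - κ := by
    rw [hE0, abs_neg]
    exact he
  obtain ⟨x1, hx1⟩ : ∃ x, x = c ^ (1 / 200 : ℝ) := ⟨_, rfl⟩
  rw [← hx1] at n1 n2
  have hx10 : 0 ≤ x1 := by rw [hx1]; positivity
  have hlaw : ∀ p : Fin d → ℝ, ∑ i, p i ^ 2 ≤ N ^ 2 * L2 * (η * s2) →
      ‖((η : ℝ) : ℂ) * ∑' x, ph p (x - a) * ((‖u x‖ ^ 2 : ℝ) : ℂ) -
        ((Tg γ0 γ1 η s2 E0 p : ℝ) : ℂ)‖ ≤ x1 := by
    intro p hp
    have h5 := hL' η hη1 hη2 u (by rw [neg_neg]; exact hu) p hp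
    rw [← hE0, ← hx1] at h5
    exact h5
  have z1 := one_law a u η γ0 γ1 η s2 E0 x1 (hlaw (fun _ => 0) (by
    simp only [ne_eq, OfNat.ofNat_ne_zero, not_false_eq_true, zero_pow, Finset.sum_const_zero]
    positivity))
  obtain ⟨G0, hG0⟩ : ∃ G0, G0 = (γ0 E0).im := ⟨_, rfl⟩
  rw [← hG0] at z1
  have hG0le : G0 ≤ Cu := by rw [hG0]; exact hub E0 hB
  have hG1 : m1 ≤ (γ1 E0).im := h2a E0 hB
  have hG10 : (γ1 E0).im ≤ G0 := by rw [hG0]; exact h2b E0 hB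
  have hG0m : m1 ≤ G0 := hG1.trans hG10
  have hG00 : 0 < G0 := hm1.trans_le hG0m
  have hG1p : 0 < (γ1 E0).im := hm1.trans_le hG1
  have z1' := abs_le.1 z1
  have hx1m : x1 ≤ m1 / 2 := by
    have := min_le_left (m1 / 2) 1
    linarith
  have hx11 : x1 ≤ 1 := by
    have := min_le_right (m1 / 2) 1
    linarith
  have hA1 : Aw (fun _ => 1) u = ∑' x, ‖u x‖ ^ 2 := by
    unfold Aw
    exact tsum_congr fun x => by rw [one_mul]
  refine ⟨by rw [← hA1]; linarith [z1'.1], ?_⟩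
  intro ι φ ho E heig cen hφ F
  -- the mass near the source
  have hd0 : 0 < d := by omega
  obtain ⟨j0⟩ : Nonempty (Fin d) := ⟨⟨0, hd0⟩⟩
  obtain ⟨k, hk⟩ : ∃ k, k = Real.sqrt (L2 * (η * s2)) := ⟨_, rfl⟩
  have hk0 : 0 < k := by rw [hk]; positivity
  have hk2 : k ^ 2 = L2 * (η * s2) := by rw [hk, Real.sq_sqrt (by positivity)]
  have hnear := near u hu.sq a j0 k hk0 N hN1 ((ε / 32 + 3 * x1) / η) (by positivity)
    (fun r hr1 hr2 => by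
      have h5 := hlaw (dir j0 r) (by
        rw [dir_sq]
        refine hr2.trans (le_of_eq ?_)
        rw [mul_pow, hk2]
        ring)
      obtain ⟨h6, -⟩ := ph_norm_law (dir j0 r) a u hu.sq η _ _ _ h5 z1
      have h7 := abs_le.1 h6
      have hTg : Tg γ0 γ1 η s2 E0 (dir j0 r) ≤ ε / 32 := by
        unfold Tg
        rw [dir_sq, ← hG0]
        have h8 : L2 ≤ r ^ 2 / (η * s2) := by
          rw [le_div_iff₀ (by positivity), ← hk2]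
          exact hr1
        have h9 : L2 * (m1 / Cu ^ 2) ≤ r ^ 2 / (η * s2) * ((γ1 E0).im / G0 ^ 2) := by
          have h10 : m1 / Cu ^ 2 ≤ (γ1 E0).im / G0 ^ 2 := by gcongr
          exact mul_le_mul h8 h10 (by positivity) (by positivity)
        have h11 : L2 * (m1 / Cu ^ 2) = 32 * Cu / ε := by
          rw [hL2]
          field_simp
        rw [h11] at h9
        rw [div_le_iff₀ (by positivity)]
        calc G0 ≤ Cu := hG0le
          _ = ε / 32 * (32 * Cu / ε) := by field_simp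
          _ ≤ ε / 32 * (1 + r ^ 2 / (η * s2) * ((γ1 E0).im / G0 ^ 2)) := by
              gcongr
              linarith
      rw [le_div_iff₀ hη0]
      nlinarith [h7.2, z1'.1])
  obtain ⟨Nr, hNr⟩ : ∃ Nr, Nr = ∑' x, (Sl a j0 (1 / (N * k))).indicator
    (fun x => ‖u x‖ ^ 2) x := ⟨_, rfl⟩
  rw [← hNr] at hnear
  have hnear2 : η * Nr ≤ ε / 2 := by
    have h5 : η * Nr ≤ η * (4 * (Aw (fun _ => 1) u / N + (ε / 32 + 3 * x1) / η)) :=
      mul_le_mul_of_nonneg_left hnear hη0.le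
    have h6 : η * (4 * (Aw (fun _ => 1) u / N + (ε / 32 + 3 * x1) / η)) =
        4 * (η * Aw (fun _ => 1) u) / N + 4 * (ε / 32 + 3 * x1) := by
      field_simp
    have h7 : 4 * (η * Aw (fun _ => 1) u) / N ≤ 4 * (Cu + 1) / N := by
      have : η * Aw (fun _ => 1) u ≤ Cu + 1 := by linarith [z1'.2]
      gcongr
    linarith
  -- the far part
  have hU : ∀ x, ‖u x‖ ≤ (Cu + 1) / η := by
    intro x
    have h5 : ‖u x‖ ^ 2 ≤ Aw (fun _ => 1) u := by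
      rw [hA1]
      exact hu.sq.le_tsum x fun _ _ => sq_nonneg _
    have h6 : Aw (fun _ => 1) u ≤ ((Cu + 1) / η) ^ 2 := by
      have h7 : Aw (fun _ => 1) u ≤ (Cu + 1) / η := by
        rw [le_div_iff₀ hη0]
        linarith [z1'.2]
      have h8 : 1 ≤ (Cu + 1) / η := by
        rw [le_div_iff₀ hη0]
        linarith
      nlinarith
    exact le_of_sq_le_sq (h5.trans h6) (by positivity)
  obtain ⟨m, hm⟩ : ∃ m, m = c ^ (165 / 82 - δ) := ⟨_, rfl⟩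
  have hm0 : 0 < m := by rw [hm]; positivity
  have hmle : m ≤ 1 := by
    rw [hm]
    exact Real.rpow_le_one hc.le hcle1 (by linarith)
  rw [← hm] at hφ
  have hA0 : 0 < c ^ (-C) := Real.rpow_pos_of_pos hc _
  have hld := ldos2 hu hη0 ho E heig F (Sl a j0 (1 / (N * k))) (1 / (N * k))
    (Sl_far a j0 _) ((Cu + 1) / η) hU (c ^ (-C)) m hA0 hm0 cen hφ
  rw [← hNr] at hld
  have hZ1 : Z d (m / 2) ≤ Kz * (4 / m) ^ (d + 1) := by
    refine (hZb (m / 2) (by positivity) (by linarith)).trans ?_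
    have h5 : 1 / (m / 2) ≤ 4 / m := by
      rw [one_div_div]
      gcongr
      norm_num
    gcongr
  have hZ2 : Z d (m / 4) ≤ Kz * (4 / m) ^ (d + 1) := by
    refine (hZb (m / 4) (by positivity) (by linarith)).trans (le_of_eq ?_)
    rw [one_div_div]
  have hZ0 := Z_one (d := d) (m / 2) (by positivity)
  have hZ0' := Z_one (d := d) (m / 4) (by positivity)
  have hexp : κ1 * c ^ (-δ) ≤ m / 4 * (1 / (N * k)) := by
    have h5 : k ≤ Real.sqrt L2 * c ^ (165 / 82 : ℝ) := by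
      rw [hk]
      apply Real.sqrt_le_iff.2
      refine ⟨by positivity, ?_⟩
      rw [mul_pow, Real.sq_sqrt (by positivity), ← Real.rpow_natCast (c ^ (165 / 82 : ℝ)) 2,
        ← Real.rpow_mul hc.le]
      have h6 : η * s2 ≤ c ^ (165 / 82 * ((2 : ℕ) : ℝ)) := by
        have h7 : c ^ (165 / 82 * ((2 : ℕ) : ℝ)) = η * c ^ 2 := by
          rw [hη, ← Real.rpow_natCast c 2, ← Real.rpow_add hc]
          norm_num
        rw [h7, hs2]
      gcongr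
    have h8 : κ1 * c ^ (-δ) = m / 4 * (1 / (N * (Real.sqrt L2 *
        c ^ (165 / 82 : ℝ)))) := by
      have h9 : c ^ (-δ) = m / c ^ (165 / 82 : ℝ) := by
        rw [hm, ← Real.rpow_sub hc]
        congr 1
        ring
      rw [hκ1', h9]
      field_simp
    rw [h8]
    gcongr
  have htail : η * (2 * ((Cu + 1) / η / η) * ((c ^ (-C)) ^ 4 * Z d (m / 2) ^ 2 *
      Real.exp (-(m / 4 * (1 / (N * k)))) * Z d (m / 4))) ≤ ε / 2 := by
    have e1 : η * (2 * ((Cu + 1) / η / η) * ((c ^ (-C)) ^ 4 * Z d (m / 2) ^ 2 *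
        Real.exp (-(m / 4 * (1 / (N * k)))) * Z d (m / 4))) =
        2 * (Cu + 1) * η⁻¹ * (c ^ (-C)) ^ 4 * (Z d (m / 2) ^ 2 * Z d (m / 4)) *
          Real.exp (-(m / 4 * (1 / (N * k)))) := by
      field_simp
    have e2 : Z d (m / 2) ^ 2 * Z d (m / 4) ≤ (Kz * (4 / m) ^ (d + 1)) ^ 2 *
        (Kz * (4 / m) ^ (d + 1)) := by gcongr
    have e3 : Real.exp (-(m / 4 * (1 / (N * k)))) ≤ Real.exp (-(κ1 * c ^ (-δ))) :=
      Real.exp_le_exp.2 (by linarith)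
    have e4 : (Kz * (4 / m) ^ (d + 1)) ^ 2 * (Kz * (4 / m) ^ (d + 1)) =
        Kz ^ 3 * 4 ^ (3 * (d + 1)) * (m⁻¹) ^ (3 * (d + 1)) := by
      rw [div_eq_mul_inv, mul_pow, mul_comm 3 (d + 1), pow_mul, pow_mul]
      ring
    have e5 : η⁻¹ = c ^ (-(83 / 41) : ℝ) := by rw [hη, ← Real.rpow_neg hc.le]
    have e6 : (c ^ (-C)) ^ 4 = c ^ (-(4 * C)) := by
      rw [← Real.rpow_natCast, ← Real.rpow_mul hc.le]
      congr 1
      push_cast
      ring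
    have e7 : (m⁻¹) ^ (3 * (d + 1)) = c ^ (-((165 / 82 - δ) * (3 * (d + 1)))) := by
      rw [hm, ← Real.rpow_neg hc.le, ← Real.rpow_natCast, ← Real.rpow_mul hc.le]
      congr 1
      push_cast
      ring
    rw [e1]
    calc 2 * (Cu + 1) * η⁻¹ * (c ^ (-C)) ^ 4 * (Z d (m / 2) ^ 2 * Z d (m / 4)) *
          Real.exp (-(m / 4 * (1 / (N * k)))) ≤
        2 * (Cu + 1) * η⁻¹ * (c ^ (-C)) ^ 4 * ((Kz * (4 / m) ^ (d + 1)) ^ 2 *
          (Kz * (4 / m) ^ (d + 1))) * Real.exp (-(κ1 * c ^ (-δ))) := by gcongr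
      _ = Kt * c ^ (-P) * Real.exp (-(κ1 * c ^ (-δ))) := by
          have e8 : c ^ (-P) = c ^ (-(83 / 41) : ℝ) * c ^ (-(4 * C)) *
              c ^ (-((165 / 82 - δ) * (3 * (d + 1)))) := by
            rw [← Real.rpow_add hc, ← Real.rpow_add hc, hP]
            congr 1
            ring
          rw [e4, e5, e6, e7, e8, hKt]
          ring
      _ ≤ ε / 2 := n3
  have hfin := mul_le_mul_of_nonneg_left hld hη0.le
  rw [mul_add] at hfin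
  have e9 : ∑ n ∈ F, ‖φ n a‖ ^ 2 * (η / ((E n - e) ^ 2 + η ^ 2)) =
      η * ∑ n ∈ F, ‖φ n a‖ ^ 2 / ((E n - e) ^ 2 + η ^ 2) := by
    rw [Finset.mul_sum]
    exact Finset.sum_congr rfl fun n _ => by ring
  rw [e9]
  linarith

end Pool.Agent.V11260.GD
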