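import Pool.Agent.TH794.HK.NumS
import Pool.Agent.TH794.HK.NumT

/-! The numbers, for variances that are polynomially small. -/

set_option autoImplicit false

open Filter

namespace Pool.Agent.V11260.GD

open Pool.Agent.TH794.HK
open Pool.Agent.W788.BK.Num
open Pool.Agent.TH794.QD
open Pool.Agent.TH794.LL2 (hexle sqrt_ex)

/-- the momenta -/
theorem numG9 (Kp b : ℝ) (hKp : 0 ≤ Kp) :
    ∀ᶠ y : ℝ in atTop, ∀ (s2 t Lr w : ℝ), Real.exp (-(3001 / 1500) * y) ≤ s2 →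
    s2 ≤ (b * Real.exp (-1 * y)) ^ 2 →
    Real.exp (-(81 / 40) * y) ≤ t → t ≤ Real.exp (-(161 / 80) * y) → Real.exp (6 * y) ≤ Lr →
    w = Real.sqrt (t * s2) →
    w ^ 2 = t * s2 ∧ 0 < w ∧ ∀ p p' : ℝ, p ^ 2 ≤ Kp * (t * s2) → |p - p'| ≤ 7 / Lr →
      |p'| ≤ (Kp + 8) * w ∧ |Real.sin p' ^ 2 - p ^ 2| ≤ Real.exp (-1 * y) * (t * s2) := by
  filter_upwards [eventually_ge_atTop 1,
    ev2 49 (-12) (-(101 / 25)) 0 (by norm_num),
    ev2 (28 * (Kp + 8)) (-(199 / 50)) (-1) 0 (by norm_num),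
    ev2 (2 * ((Kp + 8) ^ 4 * b ^ 2)) (-4) (-1) 0 (by norm_num)] with y hy1 n1 n3 n4
  simp only [pow_zero, mul_one] at n1 n3 n4
  intro s2 t Lr w hs hs' ht ht' hL hw
  have hs20 : 0 < s2 := lt_of_lt_of_le (by positivity) hs
  have ht0 : 0 < t := lt_of_lt_of_le (Real.exp_pos _) ht
  have hLr0 : 0 < Lr := lt_of_lt_of_le (Real.exp_pos _) hL
  have hw2 : w ^ 2 = t * s2 := by rw [hw, Real.sq_sqrt (by positivity)]
  have hw0 : 0 < w := by rw [hw]; exact Real.sqrt_pos.2 (by positivity)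
  have hwl : Real.exp (-(101 / 25) * y) ≤ w ^ 2 := by
    rw [hw2]
    calc Real.exp (-(101 / 25) * y) ≤ Real.exp (-(81 / 40) * y) *
          Real.exp (-(3001 / 1500) * y) := by
          rw [ex_mul]
          exact hexle hy1 _ _ (by norm_num)
      _ ≤ _ := by gcongr
  have hLi : 7 / Lr ≤ 7 * Real.exp (-6 * y) := by
    rw [div_eq_mul_inv]
    apply mul_le_mul_of_nonneg_left _ (by norm_num)
    have h1 := inv_anti₀ (Real.exp_pos _) hL
    rw [ex_inv] at h1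
    norm_num at h1 ⊢
    exact h1
  have h7w : 7 * Real.exp (-6 * y) ≤ w := by
    have h1 : (7 * Real.exp (-6 * y)) ^ 2 ≤ w ^ 2 := by
      refine le_trans ?_ hwl
      rw [mul_pow, ex_pow]
      have e1 : (((2 : ℕ) : ℝ) * -6 * y) = -12 * y := by
        push_cast
        ring
      norm_num at n1 ⊢
      exact n1
    exact le_of_sq_le_sq h1 hw0.le
  refine ⟨hw2, hw0, fun p p' hp hpp => ?_⟩
  have hpw : |p| ≤ (Kp + 1) * w := by
    have h1 : |p| ^ 2 ≤ ((Kp + 1) * w) ^ 2 := by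
      rw [sq_abs, mul_pow, hw2]
      refine hp.trans ?_
      apply mul_le_mul_of_nonneg_right _ (by positivity)
      nlinarith
    exact le_of_sq_le_sq h1 (by positivity)
  have hpp2 : |p - p'| ≤ w := (hpp.trans hLi).trans h7w
  have hp' : |p'| ≤ (Kp + 2) * w := by
    have h1 : |p'| ≤ |p| + |p - p'| := by
      have := abs_sub_abs_le_abs_sub p' p
      rw [abs_sub_comm] at this
      linarith
    linarith
  have hp8 : |p'| ≤ (Kp + 8) * w := by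
    linarith
  refine ⟨hp8, ?_⟩
  have a1 : |Real.sin p' ^ 2 - p' ^ 2| ≤ p' ^ 4 := by
    obtain ⟨q, hq⟩ : ∃ q, q = |p'| := ⟨_, rfl⟩
    have hq0 : 0 ≤ q := by rw [hq]; exact abs_nonneg _
    have e1 : Real.sin p' ^ 2 = Real.sin q ^ 2 := by
      rw [hq]
      rcases abs_cases p' with h | h <;> rw [h.1]
      rw [Real.sin_neg, neg_sq]
    have e2 : p' ^ 2 = q ^ 2 := by rw [hq, sq_abs]
    have e3 : p' ^ 4 = q ^ 4 := by
      calc p' ^ 4 = (p' ^ 2) ^ 2 := by ring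
        _ = _ := by rw [e2]; ring
    rw [e1, e2, e3]
    have s1 : |Real.sin q| ≤ q := by
      have := Real.abs_sin_le_abs (x := q)
      rwa [abs_of_nonneg hq0] at this
    have s1' := abs_le.1 s1
    have s2' : Real.sin q ^ 2 ≤ q ^ 2 := by
      rw [← sq_abs (Real.sin q)]
      exact pow_le_pow_left₀ (abs_nonneg _) s1 2
    rw [abs_of_nonpos (by linarith), neg_sub]
    rcases le_or_gt q 1 with h1 | h1
    · have s3 : q - q ^ 3 / 6 ≤ Real.sin q := by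
        rcases hq0.eq_or_lt with h0 | h0
        · rw [← h0]
          simp
        · exact (Real.sin_gt_sub_cube h0).le
      have h3 : 0 ≤ q - q ^ 3 / 6 := by nlinarith [sq_nonneg q]
      have h4 : (q - q ^ 3 / 6) ^ 2 ≤ Real.sin q ^ 2 := pow_le_pow_left₀ h3 s3 2
      nlinarith [sq_nonneg (q ^ 2), sq_nonneg (q ^ 3)]
    · have h3 : q ^ 2 ≤ q ^ 4 := pow_le_pow_right₀ h1.le (by norm_num)
      nlinarith [sq_nonneg (Real.sin q)]
  have a2 : |p' ^ 2 - p ^ 2| ≤ 7 * Real.exp (-6 * y) * (2 * (Kp + 8) * w) := by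
    have e1 : p' ^ 2 - p ^ 2 = (p' - p) * (p' + p) := by ring
    rw [e1, abs_mul]
    have h1 : |p' - p| ≤ 7 * Real.exp (-6 * y) := by
      rw [abs_sub_comm]
      exact hpp.trans hLi
    have h2 : |p' + p| ≤ 2 * (Kp + 8) * w := by
      refine (abs_add_le _ _).trans ?_
      linarith
    gcongr
  have a3 : |Real.sin p' ^ 2 - p ^ 2| ≤ p' ^ 4 + 7 * Real.exp (-6 * y) * (2 * (Kp + 8) * w) := by
    have e1 : Real.sin p' ^ 2 - p ^ 2 = (Real.sin p' ^ 2 - p' ^ 2) + (p' ^ 2 - p ^ 2) := by ring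
    rw [e1]
    exact (abs_add_le _ _).trans (add_le_add a1 a2)
  refine a3.trans ?_
  rw [← hw2]
  have c1 : p' ^ 4 ≤ 1 / 2 * Real.exp (-1 * y) * w ^ 2 := by
    have h1 : p' ^ 4 ≤ ((Kp + 8) * w) ^ 4 := by
      have : p' ^ 4 = |p'| ^ 4 := by
        rw [show p' ^ 4 = (p' ^ 2) ^ 2 by ring, ← sq_abs p']
        ring
      rw [this]
      gcongr
    refine h1.trans ?_
    have h2 : w ^ 2 ≤ b ^ 2 * Real.exp (-4 * y) := by
      rw [hw2]
      calc t * s2 ≤ Real.exp (-(161 / 80) * y) * (b * Real.exp (-1 * y)) ^ 2 := by gcongr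
        _ = b ^ 2 * Real.exp (-(321 / 80) * y) := by
            rw [mul_pow, ex_pow, mul_left_comm, ex_mul]
            norm_num
        _ ≤ _ := by
            have := hexle hy1 (-(321 / 80)) (-4) (by norm_num)
            gcongr
    calc ((Kp + 8) * w) ^ 4 = (Kp + 8) ^ 4 * (w ^ 2) * w ^ 2 := by ring
      _ ≤ (Kp + 8) ^ 4 * (b ^ 2 * Real.exp (-4 * y)) * w ^ 2 := by gcongr
      _ = 1 / 2 * (2 * ((Kp + 8) ^ 4 * b ^ 2) * Real.exp (-4 * y)) * w ^ 2 := by ring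
      _ ≤ 1 / 2 * Real.exp (-1 * y) * w ^ 2 := by gcongr
  have c2 : 7 * Real.exp (-6 * y) * (2 * (Kp + 8) * w) ≤ 1 / 2 * Real.exp (-1 * y) * w ^ 2 := by
    have hwl2 : Real.exp (-(101 / 50) * y) ≤ w := by
      have h1 : Real.exp (-(101 / 50) * y) ^ 2 ≤ w ^ 2 := by
        refine le_trans (le_of_eq ?_) hwl
        rw [ex_pow]
        norm_num
      exact le_of_sq_le_sq h1 hw0.le
    calc 7 * Real.exp (-6 * y) * (2 * (Kp + 8) * w) =
        1 / 2 * (28 * (Kp + 8) * (Real.exp (-(199 / 50) * y) * Real.exp (-(101 / 50) * y))) * w := by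
          rw [ex_mul]
          norm_num
          ring
      _ ≤ 1 / 2 * (28 * (Kp + 8) * (Real.exp (-(199 / 50) * y) * w)) * w := by
          gcongr
      _ = 1 / 2 * (28 * (Kp + 8) * Real.exp (-(199 / 50) * y)) * w ^ 2 := by ring
      _ ≤ 1 / 2 * Real.exp (-1 * y) * w ^ 2 := by gcongr
  linarith

theorem numT9 (d : ℕ) (b A2 Ch ml Kp : ℝ) (hb : 0 < b) (hA20 : 0 < A2)
    (hCh : 0 ≤ Ch) (hml : 0 < ml) (hKp : 0 ≤ Kp) :
    ∀ᶠ y : ℝ in atTop, ∀ A1 : ℝ, A1 = A2 * y → ∀ (s2 g c0 t b0 w ex ζ u X0 X Lr Cb : ℝ),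
    1 ≤ g → g ≤ A1 * y → Real.exp (-(3001 / 1500) * y) ≤ s2 →
    s2 ≤ (b * Real.exp (-1 * y)) ^ 2 → 0 ≤ c0 → c0 * g ≤ Real.exp (-(29 / 500) * y) →
    c0 * g * s2 / t ≤ Real.exp (-(11 / 200) * y) →
    Real.exp (-(81 / 40) * y) ≤ t → t ≤ Real.exp (-(161 / 80) * y) → Real.exp (6 * y) ≤ Lr →
    w ^ 2 = t * s2 → 0 < w → Cb = 2 * d * (Kp + 8) → b0 = Cb * w →
    ex = Real.exp (-1 * y) → ζ = Real.exp (-10 * y) → u = t / s2 → 0 ≤ X0 →
    X0 ≤ 56 * d / Lr / t ^ 2 → X = X0 + Ch * (s2 * (2 * g) + t + ζ) ^ (1 / 8 : ℝ) →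
    X + c0 * g ≤ ml ∧ s2 * (2 * g) + t ≤ 1 / 2 ∧ b0 + b0 ^ 2 ≤ Real.exp (-(97 / 50) * y) ∧
    80 * (c0 * g ^ 2 * s2 / t) + 9 * g ^ 3 * (b0 ^ 2 / (2 * (t * ml ^ 2)) +
      b0 ^ 3 / (8 * (t * s2 ^ 2 * ml ^ 4))) + g * b0 ^ 2 / (s2 ^ 2 * ml ^ 2) +
      (X + (3 * g + X) * (d * (ex * (3 * g / ml ^ 2)) +
        Kp * (X / ml ^ 2 + 2 * (u + (X + c0 * g)) / ml ^ 2))) ≤ Real.exp (-(1 / 170) * y) := by
  have hd0 : (0 : ℝ) ≤ d := Nat.cast_nonneg d
  obtain ⟨V1, hV1⟩ : ∃ V1 : ℝ, V1 = 1 := ⟨_, rfl⟩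
  obtain ⟨D, hD⟩ : ∃ D : ℝ, D = 2 * d * (Kp + 8) := ⟨_, rfl⟩
  obtain ⟨m, hm⟩ : ∃ m : ℝ, m = (ml ^ 2)⁻¹ := ⟨_, rfl⟩
  have hV10 : 0 < V1 := by rw [hV1]; norm_num
  have hD0 : 0 ≤ D := by rw [hD]; positivity
  obtain ⟨Ct, hCt⟩ : ∃ Ct : ℝ, Ct = 80 + 9 * (D ^ 2 * b ^ 2 * m + D ^ 3 * V1 * m ^ 2) +
    D ^ 2 * V1 * m + 1 + 4 * (3 * d * m + Kp * (m + 2 * (V1 + 2) * m)) := ⟨_, rfl⟩
  filter_upwards [eventually_ge_atTop 1,
    ev2 (Ct * A2 ^ 3) (-(71 / 12000)) (-(1 / 170)) 6 (by norm_num),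
    numX8 d b A2 Ch ml hb hA20 hCh hml,
    ev2 (2 * (D * b)) (-2) (-(97 / 50)) 0 (by norm_num),
    ev2 (D * b) (-2) 0 0 (by norm_num)] with
    y hy1 n1 hXX n9 n10
  simp only [pow_zero, mul_one, zero_mul, Real.exp_zero] at n9 n10
  intro A1 hA1 s2 g c0 t b0 w ex ζ u X0 X Lr Cb hg1 hgA hs hs' hc00 hcg hcgs ht ht' hL hw2 hw0
    hCb hb0 hex hζ hu hX00 hX0 hX
  rw [← hD] at hCb
  rw [hCb] at hb0
  have hs20 : 0 < s2 := lt_of_lt_of_le (by positivity) hs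
  obtain ⟨x1, x2, x3, x4⟩ := hXX A1 hA1 s2 g (c0 * g) t ζ X0 X Lr hs20 hg1 hgA hs' hcg ht ht' hL
    hζ hX00 hX0 hX
  obtain ⟨P, hP⟩ : ∃ P, P = A1 * y := ⟨_, rfl⟩
  rw [← hP] at hgA
  have hP1 : 1 ≤ P := hg1.trans hgA
  have hg0 : 0 < g := by linarith
  have ht0 : 0 < t := lt_of_lt_of_le (Real.exp_pos _) ht
  have hP2 : P = A2 * y ^ 2 := by rw [hP, hA1]; ring
  have hs2b : s2 ≤ b ^ 2 * Real.exp (-2 * y) := by
    refine hs'.trans (le_of_eq ?_)
    rw [mul_pow, ex_pow]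
    norm_num
  obtain ⟨E1, hE1⟩ : ∃ E1, E1 = Real.exp (-(71 / 12000) * y) := ⟨_, rfl⟩
  have hE10 : 0 < E1 := by rw [hE1]; positivity
  have hE11 : E1 ≤ 1 := by
    rw [hE1]
    exact Real.exp_le_one_iff.2 (by linarith)
  have hxl : ∀ a : ℝ, a ≤ -(71 / 12000) → Real.exp (a * y) ≤ E1 := by
    intro a ha
    rw [hE1]
    exact hexle hy1 _ _ ha
  refine ⟨x1, x2, ?_, ?_⟩
  · have hw : w ≤ b * Real.exp (-2 * y) := by
      have h1 : w ^ 2 ≤ (b * Real.exp (-2 * y)) ^ 2 := by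
        rw [hw2]
        calc t * s2 ≤ Real.exp (-(161 / 80) * y) * (b ^ 2 * Real.exp (-2 * y)) := by gcongr
          _ = b ^ 2 * Real.exp (-(321 / 80) * y) := by
              rw [mul_left_comm, ex_mul]
              norm_num
          _ ≤ b ^ 2 * Real.exp (-4 * y) := by
              have := hexle hy1 (-(321 / 80)) (-4) (by norm_num)
              gcongr
          _ = _ := by
              rw [mul_pow, ex_pow]
              norm_num
      exact le_of_sq_le_sq h1 (by positivity)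
    have h2 : b0 ≤ D * b * Real.exp (-2 * y) := by
      rw [hb0, mul_assoc]
      gcongr
    have h3 : b0 ≤ 1 := h2.trans n10
    have h4 : 0 ≤ b0 := by rw [hb0]; positivity
    have h5 : b0 ^ 2 ≤ b0 := by
      rw [sq]
      exact mul_le_of_le_one_left h4 h3
    linarith only [h2, h5, n9]
  · have hus : u ≤ V1 * E1 ^ 2 := by
      rw [hu, div_le_iff₀ hs20, hV1, one_mul]
      calc t ≤ Real.exp (-(161 / 80) * y) := ht'
        _ = Real.exp (-(71 / 12000) * y) ^ 2 * Real.exp (-(3001 / 1500) * y) := by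
            rw [ex_pow, ex_mul]
            norm_num
        _ ≤ E1 ^ 2 * s2 := by
            rw [hE1]
            gcongr
    have hu0 : 0 < u := by rw [hu]; positivity
    have hE2 : E1 ^ 2 ≤ E1 := by
      rw [sq]
      exact mul_le_of_le_one_left hE10.le hE11
    have huE : u ≤ V1 * E1 := hus.trans (by gcongr)
    have hws : w / s2 ≤ V1 * E1 := by
      have h1 : (w / s2) ^ 2 ≤ (V1 * E1) ^ 2 := by
        rw [div_pow, hw2]
        have e1 : t * s2 / s2 ^ 2 = u := by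
          rw [hu]
          field_simp
        rw [e1, mul_pow]
        refine hus.trans ?_
        have h3 : 1 ≤ V1 := by rw [hV1]
        have : V1 ≤ V1 ^ 2 := by
          rw [sq]
          exact le_mul_of_one_le_left hV10.le h3
        gcongr
      exact le_of_sq_le_sq h1 (by positivity)
    have h2' : s2 ≤ b ^ 2 * E1 := by
      have := hxl (-2) (by norm_num)
      exact hs2b.trans (by gcongr)
    have hex0 : 0 ≤ ex := by rw [hex]; positivity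
    have hexE : ex ≤ E1 := by
      rw [hex]
      exact hxl _ (by norm_num)
    have hfin := errT D b V1 m ml Kp d P E1 g c0 t s2 w X ex u hm hml hD0 hV10.le hKp hd0 hP1
      hE10.le hE11 hg0 hgA ht0 hs20 hw0 hw2 hc00 (hcgs.trans (hxl _ (by norm_num))) h2' hws hu huE
      x3 (x4.trans (hxl _ (by norm_num))) hex0 hexE (hcg.trans (hxl _ (by norm_num)))
    rw [hb0]
    refine hfin.trans ?_
    rw [← hCt]
    have e1 : Ct * P ^ 3 * E1 = Ct * A2 ^ 3 * y ^ 6 * Real.exp (-(71 / 12000) * y) := by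
      rw [hP2, hE1]
      ring
    rw [e1]
    exact n1

end Pool.Agent.V11260.GD
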