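import Pool.Agent.V11260.GD.Gau

/-! The characteristic function of the resolvent for Gaussian potentials, in terms of the coupling. -/

set_option autoImplicit false
set_option linter.unusedSectionVars false

open scoped BigOperators Topology
open MeasureTheory ProbabilityTheory Filter Set

namespace Pool.Agent.V11260.GD

open Pool.Agent.W788.BK
open Pool.Agent.H4R2
open Pool.Agent.H4R2.LO (Zd)
open Pool.Agent.W788.BK.Num
open Pool.Agent.TH794.QD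
open Pool.Agent.TH794.QE
open Pool.Agent.TH794.HK
open Pool.Agent.TH794.FG (LS)
open Pool.Agent.TH794.LL2 (hexle)

/-- **the resolvent for Gaussian potentials in dimension at least three** -/
theorem gaussS (hES : S_ES) (hTH : S_THIRD) (hFL : S_FLUCT) (hIN : S_INV)
    (hSU : S_SUP) (hQB : S_QB) (hLO : S_LOW) (hAD : S_ADM) (hFA : S_FAC) (hO : S_OSC)
    (d : ℕ) (hd : 3 ≤ d) (κ : ℝ) (hκ : 0 < κ) (hκ1 : κ ≤ 1) :
    (∃ m : ℝ, 0 < m ∧ ∀ E : ℝ, |E| ≤ 2 * d - κ → m ≤ (GF (F1 d) (E : ℂ)).im ∧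
      (GF (F1 d) (E : ℂ)).im ≤ (GF (F0 d) (E : ℂ)).im) ∧
    ∀ K : ℝ, 0 ≤ K → ∃ σ0 : ℝ, 0 < σ0 ∧ ∀ σ : ℝ, 0 < σ → σ ≤ σ0 →
      ∃ G : Set (Zd d → ℝ), MeasurableSet G ∧
        1 - Real.exp (-σ ^ (-(1 / 3000) : ℝ)) ≤
          (Measure.infinitePi fun _ : Zd d => gaussianReal 0 1).real G ∧
        ∀ ξ ∈ G, ∀ a : Zd d, ‖a‖ ≤ Real.exp (σ ^ (-(1 / 3000) : ℝ)) →
          ∀ E : ℝ, |E| ≤ 2 * d - κ → ∀ η : ℝ, σ ^ (40489 / 20000 : ℝ) ≤ η →
          η ≤ σ ^ (20123 / 10000 : ℝ) →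
          ∀ u : Zd d → ℂ, Rs d (fun x => -(σ * ξ x)) a (-E) η u →
          ∀ p : Fin d → ℝ, ∑ i, p i ^ 2 ≤ K * (η * σ ^ 2) →
            ‖((η : ℝ) : ℂ) * ∑' x, ph p (x - a) * ((‖u x‖ ^ 2 : ℝ) : ℂ) -
              ((Tg (fun E => GF (F0 d) (E : ℂ)) (fun E => GF (F1 d) (E : ℂ)) η (σ ^ 2)
                E p : ℝ) : ℂ)‖ ≤ σ ^ (1 / 200 : ℝ) := by
  obtain ⟨⟨m, hm, hl⟩, h3⟩ := engG3 hES hTH hFL hIN hSU hQB hLO hAD hFA hO d hd κ hκ hκ1
  refine ⟨⟨m, hm, hl⟩, fun K hK => ?_⟩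
  obtain ⟨y0, h0⟩ := gaussY d (fun E => |E| ≤ 2 * d - κ) _ _ K hK (h3 (4 * K) (by positivity))
    fun E hE => by
      obtain ⟨h5, h6⟩ := hl E hE
      exact ⟨by linarith, by linarith, h6⟩
  obtain ⟨y1, hy1⟩ : ∃ y1, y1 = max y0 1 := ⟨_, rfl⟩
  refine ⟨Real.exp (-(4000 / 3999 * y1)), Real.exp_pos _, fun σ hσ hσ0 => ?_⟩
  obtain ⟨y, hy⟩ : ∃ y, y = 3999 / 4000 * Real.log (1 / σ) := ⟨_, rfl⟩
  have hlogc : Real.log σ = -(4000 / 3999 * y) := by
    rw [hy, one_div, Real.log_inv]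
    ring
  have hyy1 : y1 ≤ y := by
    have h1 := Real.log_le_log hσ hσ0
    rw [Real.log_exp, hlogc] at h1
    linarith
  have hyy0 : y0 ≤ y := le_trans (by rw [hy1]; exact le_max_left _ _) hyy1
  have hyone : 1 ≤ y := le_trans (by rw [hy1]; exact le_max_right _ _) hyy1
  have hrp : ∀ p q : ℝ, q = -(4000 / 3999 * p) → σ ^ p = Real.exp (q * y) := by
    intro p q hpq
    rw [Real.rpow_def_of_pos hσ, hlogc, hpq]
    congr 1
    ring
  have e1 : σ ^ (-(1 / 3000) : ℝ) = Real.exp (4000 / (3999 * 3000) * y) := hrp _ _ (by norm_num)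
  have e2 : σ ^ (40489 / 20000 : ℝ) = Real.exp (-(4000 / 3999 * (40489 / 20000)) * y) :=
    hrp _ _ (by norm_num)
  have e2' : σ ^ (20123 / 10000 : ℝ) = Real.exp (-(4000 / 3999 * (20123 / 10000)) * y) :=
    hrp _ _ (by norm_num)
  have e3 : σ ^ (1 / 200 : ℝ) = Real.exp (-(4000 / 3999 * (1 / 200)) * y) :=
    hrp _ _ (by norm_num)
  have e4 : σ = Real.exp (-(4000 / 3999) * y) := by
    rw [neg_mul, ← hlogc, Real.exp_log hσ]
  have e5 : σ ^ 2 = Real.exp (-(8000 / 3999) * y) := by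
    rw [e4, ex_pow]
    congr 1
    push_cast
    ring
  have e6 : Real.exp (σ ^ (-(1 / 3000) : ℝ)) ≤ Real.exp (Real.exp (1 / 2600 * y)) := by
    apply Real.exp_le_exp.2
    rw [e1]
    exact hexle hyone _ _ (by norm_num)
  obtain ⟨G, hG, hP, hL⟩ := h0 y hyy0
  refine ⟨G, hG, ?_, fun ξ hξ a ha E hE η hηl hηu u hu p hp => ?_⟩
  · refine le_trans ?_ hP
    have h1 : Real.exp (-Real.exp (1 / 2600 * y)) ≤ Real.exp (-σ ^ (-(1 / 3000) : ℝ)) := by
      apply Real.exp_le_exp.2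
      have h2 := Real.exp_le_exp.1 e6
      linarith
    linarith
  · have hLS := rs_LS hu ξ 0 σ (fun x => by ring)
    rw [zero_sub, neg_neg] at hLS
    have h1 := hL ξ hξ a (ha.trans e6) E hE η ?_ ?_ _ _ (by rw [← e4]; exact hLS) p
      (by rw [← e5]; exact hp)
    · rw [← e5] at h1
      have e9 : (fun x => ph p (x - a) * (((-(u x).re) ^ 2 + (u x).im ^ 2 : ℝ) : ℂ)) =
          fun x => ph p (x - a) * ((‖u x‖ ^ 2 : ℝ) : ℂ) := by
        funext x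
        rw [← Complex.normSq_eq_norm_sq, Complex.normSq_apply]
        congr 2
        ring
      rw [e9] at h1
      refine h1.trans ?_
      rw [e3]
      exact hexle hyone _ _ (by norm_num)
    · refine le_trans ?_ hηl
      rw [e2]
      exact hexle hyone _ _ (by norm_num)
    · refine hηu.trans ?_
      rw [e2']
      exact hexle hyone _ _ (by norm_num)

end Pool.Agent.V11260.GD
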