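import Pool.Agent.V11260.GD.Sig
import Pool.Agent.V11260.QT.ProfX

/-! The diffusion profile in real time, for Gaussian potentials. -/

set_option autoImplicit false

open MeasureTheory ProbabilityTheory Set Filter
open scoped ENNReal Topology BigOperators

namespace Pool.Agent.V11260.GD

open Pool.Agent.V11260.QT
open Pool.Agent.W788.BK
open Pool.Agent.H4R2.LO (Zd)
open Pool.Agent.TH794.QD (Sol La GF F0 F1 hol0 hol1)
open Pool.Agent.TH794.QE (Rs RegE BAmp bamp0 bamp1 lim3)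
open Pool.Agent.TH794.HK (ph Tg EngK)

/-- the law, for Gaussian potentials -/
theorem law_gauss (hES : S_ES) (hTH : S_THIRD) (hFL : S_FLUCT) (hIN : S_INV)
    (hSU : S_SUP) (hQB : S_QB) (hLO : S_LOW) (hAD : S_ADM) (hFA : S_FAC) (hO : S_OSC)
    (d : ℕ) (hd : 3 ≤ d) : ∃ γ0 γ1 : ℝ → ℂ, (γ0 = fun E : ℝ => GF (F0 d) (E : ℂ)) ∧
    (γ1 = fun E : ℝ => GF (F1 d) (E : ℂ)) ∧
    (∀ E, E ∈ S0 d →
      Tendsto (fun t : ℝ => GF (F0 d) ((E : ℂ) + (t : ℂ) * Complex.I)) (𝓝[>] 0) (𝓝 (γ0 E)) ∧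
      Tendsto (fun t : ℝ => GF (F1 d) ((E : ℂ) + (t : ℂ) * Complex.I)) (𝓝[>] 0) (𝓝 (γ1 E)) ∧
      0 < (γ1 E).im ∧ (γ1 E).im ≤ (γ0 E).im) ∧
    ∀ κ K : ℝ, 0 < κ → κ ≤ 1 → 0 ≤ K →
    ∃ c0 : ℝ, 0 < c0 ∧ ∀ c : ℝ, 0 < c → c ≤ c0 →
      ∃ G : Set (Zd d → ℝ), MeasurableSet G ∧
        1 - Real.exp (-c ^ (-(1 / 3000) : ℝ)) ≤
          (Measure.infinitePi fun _ : Zd d => gaussianReal 0 1).real G ∧
        ∀ ω ∈ G,
          ∀ a : Zd d, ‖a‖ ≤ Real.exp (c ^ (-(1 / 3000) : ℝ)) →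
          ∀ e : ℝ, 0 - e ∈ SR d κ → ∀ η : ℝ, c ^ (40489 / 20000 : ℝ) ≤ η →
          η ≤ c ^ (20123 / 10000 : ℝ) →
          ∀ u : Zd d → ℂ, Rs d (fun x => -(c * ω x)) a e η u →
          |η * Aw (fun _ => 1) u - (γ0 (0 - e)).im| ≤ c ^ (1 / 200 : ℝ) ∧
          ∀ p : Fin d → ℝ, ∑ i, p i ^ 2 ≤ K * (η * c ^ 2) →
            |η * Aw (wc p a) u - ((γ0 (0 - e)).im +
              Tg γ0 γ1 η (c ^ 2) (0 - e) p)| ≤ 2 * c ^ (1 / 200 : ℝ) ∧
            |η * Aw (ws p a) u - (γ0 (0 - e)).im| ≤ 2 * c ^ (1 / 200 : ℝ) := by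
  refine ⟨_, _, rfl, rfl, fun E hE => ?_, fun κ K hκ hκ1 hK => ?_⟩
  · obtain ⟨hE0, hE4⟩ := hE
    obtain ⟨κ, hκ⟩ : ∃ κ, κ = min 1 (2 * d - |E|) := ⟨_, rfl⟩
    have hκ0 : 0 < κ := by
      rw [hκ]
      exact lt_min one_pos (by linarith)
    have hκ1 : κ ≤ 1 := by rw [hκ]; exact min_le_left _ _
    have hk2 : |E| ≤ 2 * d - κ := by
      have : κ ≤ 2 * d - |E| := by rw [hκ]; exact min_le_right _ _
      linarith
    obtain ⟨⟨m, hm, h2⟩, -⟩ := gaussS hES hTH hFL hIN hSU hQB hLO hAD hFA hO d hd κ hκ0 hκ1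
    obtain ⟨k5, k6⟩ := h2 E hk2
    exact ⟨lim3 _ _ (hol0 hO d hd) E, lim3 _ _ (hol1 hO d hd) E, by linarith, k6⟩
  · obtain ⟨-, h3⟩ := gaussS hES hTH hFL hIN hSU hQB hLO hAD hFA hO d hd κ hκ hκ1
    obtain ⟨c0, hc0, h4⟩ := h3 K hK
    refine ⟨c0, hc0, fun c hc hcc => ?_⟩
    obtain ⟨G, hG, hP, hL⟩ := h4 c hc hcc
    refine ⟨G, hG, hP, fun ω hω a ha e he η hη1 hη2 u hu => ?_⟩
    have hη0 : 0 < η := lt_of_lt_of_le (Real.rpow_pos_of_pos hc _) hη1
    have hL' := hL ω hω a ha (0 - e) he.2 η hη1 hη2 u (by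
      rw [zero_sub, neg_neg]
      exact hu)
    have z1 := one_law a u η _ _ η (c ^ 2) (0 - e) (c ^ (1 / 200 : ℝ))
      (hL' (fun _ => 0) (by
        simp only [ne_eq, OfNat.ofNat_ne_zero, not_false_eq_true, zero_pow, Finset.sum_const_zero]
        positivity))
    refine ⟨z1, fun p hp => ?_⟩
    exact ph_norm_law p a u hu.sq η _ _ _ (hL' p hp) z1

/-- **the diffusion profile in real time** -/
theorem time_gauss (hES : S_ES) (hTH : S_THIRD) (hFL : S_FLUCT) (hIN : S_INV)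
    (hSU : S_SUP) (hQB : S_QB) (hLO : S_LOW) (hAD : S_ADM) (hFA : S_FAC) (hO : S_OSC)
    (d : ℕ) (hd : 3 ≤ d) : ∃ γ0 γ1 : ℝ → ℂ, (γ0 = fun E : ℝ => GF (F0 d) (E : ℂ)) ∧
    (γ1 = fun E : ℝ => GF (F1 d) (E : ℂ)) ∧
    (∀ E, E ∈ S0 d →
      Tendsto (fun t : ℝ => GF (F0 d) ((E : ℂ) + (t : ℂ) * Complex.I)) (𝓝[>] 0) (𝓝 (γ0 E)) ∧
      Tendsto (fun t : ℝ => GF (F1 d) ((E : ℂ) + (t : ℂ) * Complex.I)) (𝓝[>] 0) (𝓝 (γ1 E)) ∧
      0 < (γ1 E).im ∧ (γ1 E).im ≤ (γ0 E).im) ∧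
    IntegrableOn (fun E => (γ0 E).im) (S0 d) ∧ ∫ E in S0 d, (γ0 E).im = Real.pi ∧
    ∀ K ε : ℝ, 0 ≤ K → 0 < ε →
    ∃ c0 : ℝ, 0 < c0 ∧ ∀ c : ℝ, 0 < c → c ≤ c0 →
      ∃ G : Set (Zd d → ℝ), MeasurableSet G ∧
        1 - Real.exp (-c ^ (-(1 / 3000) : ℝ)) ≤
          (Measure.infinitePi fun _ : Zd d => gaussianReal 0 1).real G ∧
        ∀ ω ∈ G,
          ∀ a : Zd d, ‖a‖ ≤ Real.exp (c ^ (-(1 / 3000) : ℝ)) →
          ∀ ψ, Sol d (fun x => -(c * ω x)) a ψ → ∀ T : ℝ, c ^ (-(159 / 79) : ℝ) ≤ T →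
          T ≤ c ^ (-(83 / 41) : ℝ) → ∀ p : Fin d → ℝ, (∑ i, p i ^ 2) * T ≤ K * c ^ 2 →
            |∫ s in Ioc (0 : ℝ) T, (Aw (wc p a) (ψ s) -
              (1 + Pool.Agent.V11260.QT.Lp d γ0 γ1 (2 * (∑ i, p i ^ 2) / c ^ 2 * s)))| ≤ ε * T ∧
            |∫ s in Ioc (0 : ℝ) T, (Aw (ws p a) (ψ s) - 1)| ≤ ε * T := by
  obtain ⟨γ0, γ1, hγe0, hγe1, hγ, hlaw⟩ := law_gauss hES hTH hFL hIN hSU hQB hLO hAD hFA hO d hd
  have hγ0 : ∀ E, E ∈ S0 d → Tendsto (fun t : ℝ => GF (F0 d) ((E : ℂ) + (t : ℂ) * Complex.I))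
      (𝓝[>] 0) (𝓝 (γ0 E)) := fun E hE => (hγ E hE).1
  have hγ1 : ∀ E, E ∈ S0 d → Tendsto (fun t : ℝ => GF (F1 d) ((E : ℂ) + (t : ℂ) * Complex.I))
      (𝓝[>] 0) (𝓝 (γ1 E)) := fun E hE => (hγ E hE).2.1
  obtain ⟨hgi, hgle⟩ := im_int (by omega : 1 ≤ d) hγ0
  have hS0 := S0_meas d
  have hpi := Real.pi_pos
  have hmass : ∫ E in S0 d, (γ0 E).im = Real.pi := by
    refine le_antisymm hgle ?_
    refine le_of_forall_pos_le_add fun e he => ?_
    obtain ⟨κ, hκ, -, h1⟩ := mass_S hO (by omega : 2 ≤ d) hγ0 e he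
    have h2 : ∫ E in SR d κ, (γ0 E).im ≤ ∫ E in S0 d, (γ0 E).im := by
      refine setIntegral_mono_set hgi ?_ (HasSubset.Subset.eventuallyLE (SR_sub d κ hκ))
      filter_upwards [ae_restrict_mem hS0] with E hE
      exact im_nonneg hγ0 E hE
    linarith
  refine ⟨γ0, γ1, hγe0, hγe1, hγ, hgi, hmass, fun K ε hK hε => ?_⟩
  -- the measurable versions
  obtain ⟨g, hg⟩ : ∃ g : ℝ → ℝ, g = (S0 d).indicator fun E => (γ0 E).im := ⟨_, rfl⟩
  obtain ⟨g', hg'⟩ : ∃ g : ℝ → ℝ, g = (S0 d).indicator fun E => (γ1 E).im := ⟨_, rfl⟩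
  have hgE : ∀ E ∈ S0 d, g E = (γ0 E).im := fun E hE => by rw [hg, indicator_of_mem hE]
  have hgE' : ∀ E ∈ S0 d, g' E = (γ1 E).im := fun E hE => by rw [hg', indicator_of_mem hE]
  have hgm : Measurable g := by rw [hg]; exact ind_meas d _ (bamp0 d) γ0 hγ0
  have hgm' : Measurable g' := by rw [hg']; exact ind_meas d _ (bamp1 d) γ1 hγ1
  obtain ⟨D, hD⟩ : ∃ D : ℝ → ℝ, D = fun E => g' E / g E ^ 2 := ⟨_, rfl⟩
  have hDm : Measurable D := by rw [hD]; exact hgm'.div (hgm.pow_const 2)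
  have hDE : ∀ E ∈ S0 d, D E = (γ1 E).im / (γ0 E).im ^ 2 := fun E hE => by
    rw [hD]
    simp only
    rw [hgE E hE, hgE' E hE]
  have hg0 : ∀ E ∈ S0 d, 0 ≤ g E := fun E hE => by
    rw [hgE E hE]
    exact im_nonneg hγ0 E hE
  have hD0 : ∀ E ∈ S0 d, 0 ≤ D E := fun E hE => by
    rw [hDE E hE]
    obtain ⟨-, -, h1, -⟩ := hγ E hE
    positivity
  have hgi' : IntegrableOn g (S0 d) := (integrableOn_congr_fun hgE hS0).2 hgi
  have hgπ : ∫ E in S0 d, g E = Real.pi := by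
    rw [← hmass]
    exact setIntegral_congr_fun hS0 hgE
  obtain ⟨n, δ, hδ, HT⟩ := tauB ε hε
  obtain ⟨κ, hκ, hκ1, hκm⟩ := mass_S hO (by omega : 2 ≤ d) hγ0 (δ / 16) (by positivity)
  obtain ⟨c1, hc1, hL⟩ := hlaw κ (2 * K) hκ hκ1 (by positivity)
  obtain ⟨c2, hc2, hnum⟩ := ev_ex ((small_ev (24 * d) (1 / 200) (δ / 4)
    (by norm_num) (by positivity)).and
    ((pow_ev (((n : ℝ) + 1) / 2) (159 / 79) (20123 / 10000) (by norm_num)).and
    (pow_ev 2 (40489 / 20000) (83 / 41) (by norm_num))))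
  refine ⟨min c1 c2, lt_min hc1 hc2, fun c hc hcc => ?_⟩
  obtain ⟨n1, n2, n3⟩ := hnum c hc (hcc.trans (min_le_right _ _))
  obtain ⟨G, hG, hP, hωL0⟩ := hL c hc (hcc.trans (min_le_left _ _))
  refine ⟨G, hG, hP, fun ω hω a ha ψ hψ T hT1 hT2 p hp => ?_⟩
  have hωL := hωL0 ω hω
  have hT : 0 < T := lt_of_lt_of_le (Real.rpow_pos_of_pos hc _) hT1
  have hd2 : (2 : ℝ) ≤ d := by exact_mod_cast (by omega : 2 ≤ d)
  obtain ⟨P, hPdef⟩ : ∃ P, P = ∑ i, p i ^ 2 := ⟨_, rfl⟩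
  have hP0 : 0 ≤ P := by rw [hPdef]; positivity
  rw [← hPdef] at hp ⊢
  obtain ⟨s2, hs2⟩ : ∃ s2, s2 = c ^ 2 := ⟨_, rfl⟩
  have hs20 : 0 < s2 := by rw [hs2]; positivity
  rw [← hs2] at hp ⊢
  obtain ⟨Q, hQ⟩ : ∃ Q, Q = 2 * T * P / s2 := ⟨_, rfl⟩
  have hQ0 : 0 ≤ Q := by rw [hQ]; positivity
  -- the energies
  have hη : ∀ k : ℕ, k ≤ n → c ^ (40489 / 20000 : ℝ) ≤ ((k : ℝ) + 1) / (2 * T) ∧
      ((k : ℝ) + 1) / (2 * T) ≤ c ^ (20123 / 10000 : ℝ) ∧
      P ≤ 2 * K * (((k : ℝ) + 1) / (2 * T) * s2) := by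
    intro k hk
    have hkn : (k : ℝ) ≤ n := by exact_mod_cast hk
    have hk0 : (0 : ℝ) ≤ k := Nat.cast_nonneg k
    refine ⟨?_, ?_, ?_⟩
    · rw [le_div_iff₀ (by positivity)]
      have h1 : c ^ (83 / 41 : ℝ) * T ≤ 1 := by
        calc c ^ (83 / 41 : ℝ) * T ≤ c ^ (83 / 41 : ℝ) * c ^ (-(83 / 41) : ℝ) := by gcongr
          _ = 1 := by rw [← Real.rpow_add hc]; norm_num
      calc c ^ (40489 / 20000 : ℝ) * (2 * T) = (2 * c ^ (40489 / 20000 : ℝ)) * T := by ring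
        _ ≤ c ^ (83 / 41 : ℝ) * T := by gcongr
        _ ≤ 1 := h1
        _ ≤ (k : ℝ) + 1 := by linarith
    · rw [div_le_iff₀ (by positivity)]
      have h1 : 1 ≤ c ^ (159 / 79 : ℝ) * T := by
        calc (1 : ℝ) = c ^ (159 / 79 : ℝ) * c ^ (-(159 / 79) : ℝ) := by
              rw [← Real.rpow_add hc]; norm_num
          _ ≤ c ^ (159 / 79 : ℝ) * T := by gcongr
      have h2 : ((n : ℝ) + 1) / 2 * 1 ≤ ((n : ℝ) + 1) / 2 * (c ^ (159 / 79 : ℝ) * T) := by gcongr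
      have h3 : ((n : ℝ) + 1) / 2 * (c ^ (159 / 79 : ℝ) * T) ≤ c ^ (20123 / 10000 : ℝ) * T := by
        rw [← mul_assoc]
        gcongr
      linarith
    · have h1 : 2 * K * (((k : ℝ) + 1) / (2 * T) * s2) = K * s2 * ((k : ℝ) + 1) / T := by
        field_simp
      rw [h1, le_div_iff₀ hT]
      refine hp.trans ?_
      have : 0 ≤ K * s2 := by positivity
      nlinarith
  have hvolW : volume (Icc (-(2 * d : ℝ)) (2 * d)) ≠ ⊤ := by simp
  have hSW : SR d κ ⊆ Icc (-(2 * d : ℝ)) (2 * d) := by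
    rintro E ⟨h1, h2⟩
    exact abs_le.1 (by linarith)
  have hvol : volume (SR d κ) ≠ ⊤ := ((measure_mono hSW).trans_lt (lt_top_iff_ne_top.2 hvolW)).ne
  have hvolr : volume.real (SR d κ) ≤ 4 * d := by
    have h1 := measureReal_mono (μ := volume) hSW hvolW
    rw [Real.volume_real_Icc_of_le (by linarith)] at h1
    linarith
  have hκm' : Real.pi - δ / 16 ≤ ∫ E in SR d κ, g E := by
    rw [setIntegral_congr_fun (SR_meas d κ) fun E hE => hgE E (SR_sub d κ hκ hE)]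
    exact hκm
  have hε1 : 0 ≤ 2 * c ^ (1 / 200 : ℝ) := by positivity
  have herr : 3 * (4 * d) * (2 * c ^ (1 / 200 : ℝ)) + 4 * (δ / 16) ≤ δ := by
    have e1 : 3 * (4 * (d : ℝ)) * (2 * c ^ (1 / 200 : ℝ)) = 24 * d * c ^ (1 / 200 : ℝ) := by ring
    rw [e1]
    linarith
  -- the Laplace transform
  have hlap : ∀ k : ℕ, k ≤ n → ∀ w : Zd d → ℝ, (∀ x, 0 ≤ w x) → (∀ x, w x ≤ 2) →
      ∀ lw : ℝ → ℝ, Measurable lw → (∀ E ∈ S0 d, 0 ≤ lw E ∧ lw E ≤ 2 * g E) →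
      (∀ E ∈ SR d κ, |(((k : ℝ) + 1) / (2 * T)) *
        qw ψ (0) (((k : ℝ) + 1) / (2 * T)) w E - lw E| ≤ 2 * c ^ (1 / 200 : ℝ)) →
      |((k : ℝ) + 1) / T * (∫ s in Ioi (0 : ℝ), Real.exp (-(((k : ℝ) + 1) / T) * s) *
        Aw w (ψ s)) - Real.pi⁻¹ * ∫ E in S0 d, lw E| ≤ δ := by
    intro k hk w hw0 hw2 lw hlm hlw hl
    obtain ⟨k1, k2, k3⟩ := hη k hk
    have hη0 : 0 < ((k : ℝ) + 1) / (2 * T) := by positivity
    have h1 := prof_lap hψ (0) (((k : ℝ) + 1) / (2 * T)) hη0 w hw0 hw2 (SR d κ)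
      (S0 d) (SR_meas d κ) hS0 (SR_sub d κ hκ) hvol (4 * d) hvolr g lw hgi'
      hlm.aestronglyMeasurable hlw (δ / 16) (2 * c ^ (1 / 200 : ℝ)) hε1 hκm' hgπ.le
      (fun E hE => by
        refine ⟨?_, hl E hE⟩
        have h2 := (hωL a ha (0 - E) (by
          rw [sub_sub_cancel]
          exact hE) _ k1 k2 _ (rs_La hψ (0 - E) _ hη0)).1
        rw [sub_sub_cancel] at h2
        unfold qw
        rw [hgE E (SR_sub d κ hκ hE)]
        have h3 : 0 ≤ c ^ (1 / 200 : ℝ) := by positivity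
        linarith)
    have e1 : 2 * (((k : ℝ) + 1) / (2 * T)) = ((k : ℝ) + 1) / T := by field_simp
    rw [e1] at h1
    exact h1.trans herr
  constructor
  · -- the cosine
    obtain ⟨l, hl⟩ : ∃ l : ℝ → ℝ, l = fun τ => Real.pi⁻¹ *
      ∫ E in S0 d, g E * (1 + Real.exp (-(τ * (D E * Q)))) := ⟨_, rfl⟩
    have hlx : ∀ τ, l τ = Real.pi⁻¹ * ∫ E in S0 d, g E * (1 + Real.exp (-(τ * (D E * Q)))) :=
      fun τ => by rw [hl]
    have hlm : Measurable l := by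
      rw [hl]
      exact (mix_meas (S0 d) g (fun E => D E * Q) hgm (hDm.mul_const Q)).const_mul _
    have hDQ : ∀ E ∈ S0 d, 0 ≤ D E * Q := fun E hE => mul_nonneg (hD0 E hE) hQ0
    have hexpi : ∀ τ : ℝ, 0 < τ →
        IntegrableOn (fun E => g E * Real.exp (-(τ * (D E * Q)))) (S0 d) := by
      intro τ hτ
      refine Integrable.mono' hgi' (by fun_prop) ?_
      filter_upwards [ae_restrict_mem hS0] with E hE
      have a1 := hDQ E hE
      have a2 := hg0 E hE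
      have a3 : Real.exp (-(τ * (D E * Q))) ≤ 1 := Real.exp_le_one_iff.2 (by
        have := mul_nonneg hτ.le a1
        linarith)
      rw [Real.norm_of_nonneg (by positivity)]
      exact mul_le_of_le_one_right a2 a3
    have hl1 : ∀ τ, 0 < τ → l τ = 1 + Real.pi⁻¹ *
        ∫ E in S0 d, g E * Real.exp (-(τ * (D E * Q))) := by
      intro τ hτ
      rw [hlx]
      have e1 : ∀ E, g E * (1 + Real.exp (-(τ * (D E * Q)))) =
          g E + g E * Real.exp (-(τ * (D E * Q))) := fun E => by ring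
      simp only [e1]
      rw [integral_add hgi' (hexpi τ hτ), hgπ, mul_add, inv_mul_cancel₀ hpi.ne']
    have hlb : ∀ τ, 0 < τ → 0 ≤ l τ ∧ l τ ≤ 2 := by
      intro τ hτ
      rw [hl1 τ hτ]
      have b1 : 0 ≤ ∫ E in S0 d, g E * Real.exp (-(τ * (D E * Q))) :=
        setIntegral_nonneg hS0 fun E hE => mul_nonneg (hg0 E hE) (Real.exp_pos _).le
      have b2 : ∫ E in S0 d, g E * Real.exp (-(τ * (D E * Q))) ≤ Real.pi := by
        rw [← hgπ]
        refine setIntegral_mono_on (hexpi τ hτ) hgi' hS0 fun E hE => ?_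
        refine mul_le_of_le_one_right (hg0 E hE) (Real.exp_le_one_iff.2 ?_)
        have := mul_nonneg hτ.le (hDQ E hE)
        linarith
      have b3 : Real.pi⁻¹ * (∫ E in S0 d, g E * Real.exp (-(τ * (D E * Q)))) ≤ 1 := by
        rw [inv_mul_le_iff₀ hpi]
        linarith
      have b4 : 0 ≤ Real.pi⁻¹ * (∫ E in S0 d, g E * Real.exp (-(τ * (D E * Q)))) := by positivity
      constructor <;> linarith
    have h1 := HT (fun s => Aw (wc p a) (ψ s)) (Aw_meas hψ _ (wc_0 p a) (wc_2 p a))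
      (fun s => ⟨Aw_nonneg _ (wc_0 p a) _, Aw_two hψ _ (wc_0 p a) (wc_2 p a) s⟩) T hT l hlm hlb
      (fun k hk => by
        obtain ⟨k1, k2, k3⟩ := hη k hk
        have hη0 : 0 < ((k : ℝ) + 1) / (2 * T) := by positivity
        obtain ⟨lw, hlw⟩ : ∃ lw : ℝ → ℝ, lw = fun E => g E + g E /
          (1 + P / (((k : ℝ) + 1) / (2 * T) * s2) * D E) := ⟨_, rfl⟩
        have hlwx : ∀ E, lw E = g E + g E / (1 + P / (((k : ℝ) + 1) / (2 * T) * s2) * D E) :=
          fun E => by rw [hlw]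
        have hPk : 0 ≤ P / (((k : ℝ) + 1) / (2 * T) * s2) := by positivity
        have hden : ∀ E ∈ S0 d, 1 ≤ 1 + P / (((k : ℝ) + 1) / (2 * T) * s2) * D E :=
          fun E hE => by
            have := mul_nonneg hPk (hD0 E hE)
            linarith
        have hlwm : Measurable lw := by
          rw [hlw]
          exact hgm.add (hgm.div ((hDm.const_mul _).const_add 1))
        have h2 := hlap k hk (wc p a) (wc_0 p a) (wc_2 p a) lw hlwm (fun E hE => by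
            have c1 := hg0 E hE
            have c2 := hden E hE
            have c3 : 0 ≤ g E / (1 + P / (((k : ℝ) + 1) / (2 * T) * s2) * D E) :=
              div_nonneg c1 (by linarith)
            have c4 : g E / (1 + P / (((k : ℝ) + 1) / (2 * T) * s2) * D E) ≤ g E :=
              div_le_self c1 c2
            rw [hlwx]
            constructor <;> linarith) (fun E hE => by
            have hE0 := SR_sub d κ hκ hE
            have h3 := ((hωL a ha (0 - E) (by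
              rw [sub_sub_cancel]
              exact hE) _ k1 k2 _ (rs_La hψ (0 - E) _ hη0)).2 p (by
                rw [← hPdef, ← hs2]
                exact k3)).1
            rw [sub_sub_cancel] at h3
            unfold qw
            rw [hlwx, hgE E hE0, hDE E hE0]
            unfold Tg at h3
            rw [← hPdef, ← hs2] at h3
            exact h3)
        have e2 : ((k : ℝ) + 1) * ∫ τ in Ioi (0 : ℝ), Real.exp (-((k : ℝ) + 1) * τ) * l τ =
            Real.pi⁻¹ * ∫ E in S0 d, lw E := by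
          have e3 : ∀ τ, Real.exp (-((k : ℝ) + 1) * τ) * l τ = Real.pi⁻¹ *
              (Real.exp (-((k : ℝ) + 1) * τ) *
                ∫ E in S0 d, g E * (1 + Real.exp (-(τ * (D E * Q))))) := by
            intro τ
            rw [hlx]
            ring
          simp only [e3]
          rw [integral_const_mul, mix_lap (S0 d) g (fun E => D E * Q) hS0 hgm
            (hDm.mul_const Q) hgi' hg0 hDQ ((k : ℝ) + 1) (by positivity), mul_left_comm,
            ← integral_const_mul]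
          congr 1
          refine setIntegral_congr_fun hS0 fun E hE => ?_
          rw [hlwx, hQ]
          have c1 := hD0 E hE
          have c5 : P / (((k : ℝ) + 1) / (2 * T) * s2) * D E =
              (D E * (2 * T * P / s2)) / ((k : ℝ) + 1) := by
            field_simp
          rw [c5]
          have c6 : 0 ≤ D E * (2 * T * P / s2) := by positivity
          have c7 : (0 : ℝ) < (k : ℝ) + 1 := by positivity
          have c8 : 0 < (k : ℝ) + 1 + D E * (2 * T * P / s2) := by linarith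
          have c9 : 1 + D E * (2 * T * P / s2) / ((k : ℝ) + 1) =
              ((k : ℝ) + 1 + D E * (2 * T * P / s2)) / ((k : ℝ) + 1) := by
            field_simp
          rw [c9, div_div_eq_mul_div]
          generalize D E * (2 * T * P / s2) = W at *
          have c10 : (k : ℝ) + 1 + W ≠ 0 := c8.ne'
          field_simp
        rw [e2]
        exact h2)
    have e4 : ∫ s in Ioc (0 : ℝ) T, (Aw (wc p a) (ψ s) - l (s / T)) =
        ∫ s in Ioc (0 : ℝ) T, (Aw (wc p a) (ψ s) - (1 + Pool.Agent.V11260.QT.Lp d γ0 γ1 (2 * P / s2 * s))) := by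
      refine setIntegral_congr_fun measurableSet_Ioc fun s hs => ?_
      rw [hl1 _ (div_pos hs.1 hT)]
      unfold Pool.Agent.V11260.QT.Lp
      congr 3
      refine setIntegral_congr_fun hS0 fun E hE => ?_
      rw [← hDE E hE, ← hgE E hE, hQ]
      congr 3
      field_simp
    rw [← e4]
    exact h1
  · -- the sine
    have h1 := HT (fun s => Aw (ws p a) (ψ s)) (Aw_meas hψ _ (ws_0 p a) (ws_2 p a))
      (fun s => ⟨Aw_nonneg _ (ws_0 p a) _, Aw_two hψ _ (ws_0 p a) (ws_2 p a) s⟩) T hT (fun _ => 1)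
      measurable_const (fun τ _ => ⟨zero_le_one, one_le_two⟩)
      (fun k hk => by
        obtain ⟨k1, k2, k3⟩ := hη k hk
        have hη0 : 0 < ((k : ℝ) + 1) / (2 * T) := by positivity
        have h2 := hlap k hk (ws p a) (ws_0 p a) (ws_2 p a) g hgm (fun E hE => by
            have c1 := hg0 E hE
            constructor <;> linarith) (fun E hE => by
            have hE0 := SR_sub d κ hκ hE
            have h3 := ((hωL a ha (0 - E) (by
              rw [sub_sub_cancel]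
              exact hE) _ k1 k2 _ (rs_La hψ (0 - E) _ hη0)).2 p (by
                rw [← hPdef, ← hs2]
                exact k3)).2
            rw [sub_sub_cancel] at h3
            unfold qw
            rw [hgE E hE0]
            exact h3)
        have e2 : ((k : ℝ) + 1) * ∫ τ in Ioi (0 : ℝ), Real.exp (-((k : ℝ) + 1) * τ) * 1 =
            Real.pi⁻¹ * ∫ E in S0 d, g E := by
          simp only [mul_one]
          rw [Pool.Agent.TH794.QD.exp_val ((k : ℝ) + 1) (by positivity), hgπ,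
            mul_inv_cancel₀ (by positivity), inv_mul_cancel₀ hpi.ne']
        rw [e2]
        exact h2)
    exact h1

end Pool.Agent.V11260.GD
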